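import Pool.Agent.Helper67.NO.St5
import Pool.Agent.Helper28.NO.M_CVX
set_option autoImplicit false
namespace Pool.Agent.Helper67.NO
open Matrix Pool.Agent.Helper28.NO
open scoped Matrix.Norms.Frobenius ContDiff Topology

variable {ι κ : Type} [Fintype ι] [DecidableEq ι] [Fintype κ] [DecidableEq κ]

theorem contDiff_nexp : ContDiff ℝ ∞ (NormedSpace.exp : Matrix ι ι ℂ → Matrix ι ι ℂ) := by
  have h : AnalyticOnNhd ℝ (NormedSpace.exp : Matrix ι ι ℂ → Matrix ι ι ℂ) Set.univ :=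
    fun x _ => NormedSpace.exp_analytic x
  exact h.contDiff

omit [DecidableEq ι] in
theorem contDiff_Zf {k : ℕ} (Z : Fin k → Matrix ι ι ℂ) :
    ContDiff ℝ ∞ (fun w : Fin k → ℂ => ∑ j, w j • Z j) := by
  refine ContDiff.sum fun j _ => ?_
  exact (contDiff_apply ℝ ℂ j).smul contDiff_const

theorem contDiff_G {k : ℕ} (Z : Fin k → Matrix ι ι ℂ) (C : Matrix ι ι ℂ) :
    ContDiff ℝ ∞ (fun w : Fin k → ℂ => NormedSpace.exp (∑ j, w j • Z j) * C) := by
  have h1 : ContDiff ℝ ∞ (fun w : Fin k → ℂ => NormedSpace.exp (∑ j, w j • Z j)) :=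
    contDiff_nexp.comp (contDiff_Zf Z)
  have h2 : ContDiff ℝ ∞ (fun x : Matrix ι ι ℂ => x * C) :=
    (LinearMap.toContinuousLinearMap
      ((LinearMap.mulRight ℝ C : Matrix ι ι ℂ →ₗ[ℝ] Matrix ι ι ℂ))).contDiff
  exact h2.comp h1

theorem conj_alg (E E₀ A : Matrix ι ι ℂ) (h0 : IsUnit E₀) :
    E * A * E⁻¹ = E * E₀⁻¹ * (E₀ * A * E₀⁻¹) * (E * E₀⁻¹)⁻¹ := by
  have hd : IsUnit E₀.det := (Matrix.isUnit_iff_isUnit_det _).mp h0
  have e : E₀⁻¹ * E₀ = 1 := Matrix.nonsing_inv_mul _ hd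
  rw [Matrix.mul_inv_rev, Matrix.nonsing_inv_nonsing_inv _ hd]
  calc E * A * E⁻¹ = E * 1 * A * 1 * E⁻¹ := by rw [mul_one, mul_one]
    _ = E * (E₀⁻¹ * E₀) * A * (E₀⁻¹ * E₀) * E⁻¹ := by rw [e]
    _ = _ := by simp only [mul_assoc]

theorem smooth_u (h1 : StNIL) (lev : κ → ℕ) (hI : IfA ι lev) (A : Matrix ι ι ℂ) (hA : RT lev A)
    (k : ℕ) (Z : Fin k → Matrix ι ι ℂ) :
    ContDiff ℝ ∞ (fun w : Fin k → ℂ =>
      rho lev (NormedSpace.exp (∑ j, w j • Z j) * A * NormedSpace.exp (-∑ j, w j • Z j))) := by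
  rw [contDiff_iff_contDiffAt]
  intro w₀
  have hu := Matrix.isUnit_exp (∑ j, w₀ j • Z j)
  have hRT : RT lev (NormedSpace.exp (∑ j, w₀ j • Z j) * A * (NormedSpace.exp (∑ j, w₀ j • Z j))⁻¹) :=
    (h1 ι κ lev A hA).2.1 _ hu
  have hF := hI.smooth _ hRT
  have hG : ContDiffAt ℝ ∞ (fun w : Fin k → ℂ => NormedSpace.exp (∑ j, w j • Z j) *
      (NormedSpace.exp (∑ j, w₀ j • Z j))⁻¹) w₀ := (contDiff_G Z _).contDiffAt
  have hG1 : NormedSpace.exp (∑ j, w₀ j • Z j) * (NormedSpace.exp (∑ j, w₀ j • Z j))⁻¹ = 1 :=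
    Matrix.mul_nonsing_inv _ ((Matrix.isUnit_iff_isUnit_det _).mp hu)
  rw [← hG1] at hF
  have h := ContDiffAt.comp (f := fun w : Fin k → ℂ => NormedSpace.exp (∑ j, w j • Z j) *
      (NormedSpace.exp (∑ j, w₀ j • Z j))⁻¹) w₀ hF hG
  refine h.congr_of_eventuallyEq (Filter.Eventually.of_forall fun w => ?_)
  simp only [Function.comp_apply]
  rw [Matrix.exp_neg, conj_alg _ _ A hu]

theorem pDCU (h1 : StNIL) : StDCU := by
  intro ι κ _ _ _ _ lev hI A hA k Z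
  set Zf : (Fin k → ℂ) → Matrix ι ι ℂ := fun w => ∑ j, w j • Z j with hZf
  set u : (Fin k → ℂ) → ℝ := fun w =>
    rho lev (NormedSpace.exp (Zf w) * A * NormedSpace.exp (-Zf w)) with hu
  have hU : ContDiff ℝ ∞ u := smooth_u h1 lev hI A hA k Z
  refine ⟨hU, fun c => ?_⟩
  have hd1 : ∀ p, DifferentiableAt ℝ u p := fun p => hU.differentiable (by simp) p
  have hline : ∀ t : ℝ, u (t • c) = rho lev (cv A (Zf c) t) := by
    intro t
    simp only [hu, cv]
    have e : Zf (t • c) = t • Zf c := by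
      simp only [hZf, Finset.smul_sum, Pi.smul_apply]
      exact Finset.sum_congr rfl fun j _ => by rw [smul_assoc]
    rw [e, Matrix.exp_neg]
  have hfd : ∀ t : ℝ, fderiv ℝ u (t • c) c = 2 * (trace (Zf c * Hm lev (cv A (Zf c) t))).re := by
    intro t
    have h1' := deriv_phi lev hI A (Zf c) t (cv_RT h1 lev A hA _ t)
    have h2 : HasDerivAt (fun t : ℝ => u (t • c)) (fderiv ℝ u (t • c) c) t := by
      have h3 : HasDerivAt (fun t : ℝ => t • c) c t := by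
        simpa using (hasDerivAt_id t).smul_const c
      exact (hd1 (t • c)).hasFDerivAt.comp_hasDerivAt t h3
    have h4 : (fun t : ℝ => u (t • c)) = fun t => rho lev (cv A (Zf c) t) := funext hline
    rw [h4] at h2
    exact h2.unique h1'
  have hd2 : DifferentiableAt ℝ (fun p => fderiv ℝ u p c) 0 := by
    have h : ContDiff ℝ ∞ (fun p => fderiv ℝ u p c) :=
      (hU.fderiv_right (m := ∞) (by simp)).clm_apply contDiff_const
    exact h.differentiable (by simp) 0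
  unfold D2
  have h5 : HasDerivAt (fun t : ℝ => fderiv ℝ u (t • c) c)
      (fderiv ℝ (fun p => fderiv ℝ u p c) 0 c) 0 := by
    have h3 : HasDerivAt (fun t : ℝ => t • c) c 0 := by
      simpa using (hasDerivAt_id (0 : ℝ)).smul_const c
    have h6 : HasFDerivAt (fun p => fderiv ℝ u p c) (fderiv ℝ (fun p => fderiv ℝ u p c) 0) ((0 : ℝ) • c) := by
      rw [zero_smul]; exact hd2.hasFDerivAt
    exact h6.comp_hasDerivAt (0 : ℝ) h3
  have h7 := deriv_H lev hI A (Zf c) 0 (cv_RT h1 lev A hA _ 0)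
  rw [cv_zero] at h7
  have h8 : HasDerivAt (fun t : ℝ => 2 * (trl (Zf c)) (Hm lev (cv A (Zf c) t)))
      (2 * (trl (Zf c)) (DHm lev A (Zf c))) 0 := by
    have h9 : HasDerivAt (fun t : ℝ => (trl (Zf c)) (Hm lev (cv A (Zf c) t)))
        ((trl (Zf c)) (DHm lev A (Zf c))) 0 := by
      have h10 := ((LinearMap.toContinuousLinearMap (trl (Zf c))).hasFDerivAt
        (x := Hm lev (cv A (Zf c) 0))).comp_hasDerivAt (0 : ℝ) h7
      exact h10
    exact h9.const_mul 2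
  have h11 : (fun t : ℝ => fderiv ℝ u (t • c) c) = fun t => 2 * (trl (Zf c)) (Hm lev (cv A (Zf c) t)) := by
    funext t; rw [hfd t]; rfl
  rw [h11] at h5
  have h12 := h5.unique h8
  exact h12

end Pool.Agent.Helper67.NO
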