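import Pool.Agent.Helper67.NO.St3
set_option autoImplicit false
namespace Pool.Agent.Helper67.NO
open Matrix
open scoped Matrix.Norms.Frobenius ContDiff Topology

theorem pNIL : StNIL := by
  intro ι κ _ _ _ _ lev A h
  refine ⟨?_, ?_, ?_⟩
  · obtain ⟨n, hn⟩ : ∃ n : ℕ, ∀ q : κ, lev q < n := by
      refine ⟨(∑ q, lev q) + 1, fun q => Nat.lt_succ_of_le ?_⟩
      exact Finset.single_le_sum (fun _ _ => Nat.zero_le _) (Finset.mem_univ q)
    refine ⟨n + 1, ?_⟩
    have h1 : (A ^ (n + 1)).rank = 0 := by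
      rw [h n, Fintype.card_eq_zero_iff]
      exact ⟨fun q => absurd q.2 (hn q.1).ne⟩
    unfold Matrix.rank at h1
    rw [Module.finrank_eq_zero_iff_of_free, Submodule.subsingleton_iff_eq_bot] at h1
    have h2 := LinearMap.range_eq_bot.mp h1
    ext p q
    have h3 := congrFun (LinearMap.congr_fun h2 (Pi.single q 1)) p
    simpa [Matrix.mulVecLin_apply, Matrix.mulVec_single] using h3
  · intro g hg i
    have e : (g * A * g⁻¹) ^ (i + 1) = g * A ^ (i + 1) * g⁻¹ := by
      have hd : IsUnit g.det := (Matrix.isUnit_iff_isUnit_det g).mp hg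
      induction i with
      | zero => simp
      | succ k ih =>
        rw [pow_succ, ih, pow_succ A (k + 1)]
        have : g⁻¹ * g = 1 := Matrix.nonsing_inv_mul g hd
        calc g * A ^ (k + 1) * g⁻¹ * (g * A * g⁻¹) = g * A ^ (k + 1) * (g⁻¹ * g) * A * g⁻¹ := by
              noncomm_ring
          _ = _ := by rw [this]; noncomm_ring
    have hd : IsUnit g.det := (Matrix.isUnit_iff_isUnit_det g).mp hg
    have hd' : IsUnit g⁻¹.det := Matrix.isUnit_nonsing_inv_det g hd
    rw [e, Matrix.rank_mul_eq_left_of_isUnit_det _ _ hd', Matrix.rank_mul_eq_right_of_isUnit_det _ _ hd]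
    exact h i
  · intro c hc i
    rw [smul_pow]
    have e : c ^ (i + 1) • A ^ (i + 1) = (Matrix.diagonal fun _ => c ^ (i + 1)) * A ^ (i + 1) := by
      ext p q; simp [Matrix.diagonal_mul]
    rw [e, Matrix.rank_mul_eq_right_of_isUnit_det _ _ ?_]
    · exact h i
    · rw [Matrix.det_diagonal, Finset.prod_const]
      exact (((isUnit_iff_ne_zero.mpr hc).pow _).pow _)
end Pool.Agent.Helper67.NO
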