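import Pool.Agent.Helper67.NO.St5
import Pool.Agent.Helper29.NO.M_BL
import Pool.Agent.Helper8.NO.M_LVL
import Pool.Agent.Helper98.NO.M_BDA
import Pool.Agent.Helper9.NO.M_ALG
import Pool.Agent.Helper38.NO.M_EIK
import Pool.Agent.Helper78.NO.M_FLW
import Pool.Agent.Helper45.NO.M_RNK
import Pool.Agent.Helper74.NO.M_GEN
import Pool.Agent.Helper97.NO.M_ORB
import Pool.Agent.Helper1.NO.M_CHN
import Pool.Agent.Helper32.NO.M_MIN
import Pool.Agent.Helper33.NO.M_KNI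
import Pool.Agent.Helper96.NO.M_CRI
import Pool.Agent.Helper10.NO.M_IFT
import Pool.Agent.Helper45.NO.M_SM1
import Pool.Agent.Helper9.NO.M_SM2
import Pool.Agent.Helper52.NO.M_EXA
import Pool.Agent.Helper64.NO.M_HOR
import Pool.Agent.Helper1.NO.M_BF1
import Pool.Agent.Helper11.NO.M_BF2
import Pool.Agent.Helper38.NO.M_IFA
import Pool.Agent.Helper67.NO.M_NIL
import Pool.Agent.Helper36.NO.M_PRO
import Pool.Agent.Helper44.NO.M_HPR
import Pool.Agent.Helper28.NO.M_CVX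
import Pool.Agent.Helper97.NO.M_LOW
import Pool.Agent.Helper34.NO.M_FLO
import Pool.Agent.Helper42.NO.M_ODE
import Pool.Agent.Helper95.NO.M_MON
import Pool.Agent.Helper24.NO.M_RES
import Pool.Agent.Helper28.NO.M_CAL
import Pool.Agent.Helper72.NO.M_CMM
import Pool.Agent.Helper84.NO.M_CHH
import Pool.Agent.Helper68.NO.M_CRG
import Pool.Agent.Helper99.NO.M_CMN
import Pool.Agent.Helper44.NO.M_CPD
import Pool.Agent.Helper97.NO.M_CBS
import Pool.Agent.Helper17.NO.M_CPT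
import Pool.Agent.Helper6.NO.M_DAD
import Pool.Agent.Helper64.NO.M_DOR
import Pool.Agent.Helper52.NO.M_DGR
import Pool.Agent.Helper95.NO.M_DFI
import Pool.Agent.Helper67.NO.M_DCU
import Pool.Agent.Helper8.NO.M_DPO

/-!
# Project NO (MP_26be5b_ag): assembly
-/

set_option autoImplicit false

namespace Pool.Agent.Helper67.NO

universe u

theorem mBL : StBL := Pool.Agent.Helper29.NO.pBL
theorem mLVL : StLVL := Pool.Agent.Helper8.NO.pLVL
theorem mBDA : StBDA := Pool.Agent.Helper98.NO.pBDA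
theorem mALG : StALG := Pool.Agent.Helper9.NO.pALG
theorem mEIK : StEIK := Pool.Agent.Helper38.NO.pEIK mBL mBDA mALG
theorem mFLW : StFLW := Pool.Agent.Helper78.NO.pFLW mBL mBDA mALG mLVL
theorem mRNK : StRNK := Pool.Agent.Helper45.NO.pRNK
theorem mGEN : StGEN := Pool.Agent.Helper74.NO.pGEN
theorem mORB : StORB := Pool.Agent.Helper97.NO.pORB mRNK mGEN
theorem mCHN : StCHN := Pool.Agent.Helper1.NO.pCHN
theorem mMIN : StMIN := Pool.Agent.Helper32.NO.pMIN mBL mBDA mALG mLVL mCHN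
theorem mKNI : StKNI := Pool.Agent.Helper33.NO.pKNI
theorem mCRI : StCRI := Pool.Agent.Helper96.NO.pCRI mORB mKNI mBDA
theorem mIFT : StIFT := Pool.Agent.Helper10.NO.pIFT mBL mLVL mBDA mALG mGEN
theorem mSM1 : StSM1 := Pool.Agent.Helper45.NO.pSM1 mBL mLVL mBDA mALG mRNK mMIN mCRI mIFT
theorem mSM2 : StSM2 := Pool.Agent.Helper9.NO.pSM2 mBL mLVL mBDA mALG mRNK mMIN mCRI mIFT mSM1
theorem mEXA : StEXA := Pool.Agent.Helper52.NO.pEXA mBL mBDA
theorem mHOR : StHOR := Pool.Agent.Helper64.NO.pHOR mBL mLVL mBDA mALG mGEN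
theorem mBF1 : StBF1 := Pool.Agent.Helper1.NO.pBF1 mBL mLVL mBDA mALG mEXA
theorem mBF2 : StBF2 := Pool.Agent.Helper11.NO.pBF2 mBL mLVL mBDA mALG mGEN mBF1
theorem mIFA : StIFA :=
  Pool.Agent.Helper38.NO.pIFA mBL mLVL mBDA mALG mGEN mMIN mEIK mFLW mSM1 mSM2 mHOR mBF1 mBF2
theorem mNIL : StNIL := pNIL
theorem mPRO : StPRO := Pool.Agent.Helper36.NO.pPRO
theorem mHPR : StHPR := Pool.Agent.Helper44.NO.pHPR
theorem mCVX : StCVX := Pool.Agent.Helper28.NO.pCVX mNIL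
theorem mLOW : StLOW := Pool.Agent.Helper97.NO.pLOW mNIL mHPR mCVX
theorem mFLO : StFLO := Pool.Agent.Helper34.NO.pFLO
theorem mODE : StODE := Pool.Agent.Helper42.NO.pODE mNIL mFLO
theorem mMON : StMON := Pool.Agent.Helper95.NO.pMON mNIL mPRO mLOW mODE
theorem mRES : StRES := Pool.Agent.Helper24.NO.pRES mNIL mPRO mMON
theorem mCAL : StCAL := Pool.Agent.Helper28.NO.pCAL
theorem mCMM : StCMM := Pool.Agent.Helper72.NO.pCMM mCAL
theorem mCHH : StCHH := Pool.Agent.Helper84.NO.pCHH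
theorem mCRG : StCRG := Pool.Agent.Helper68.NO.pCRG mCAL mCHH
theorem mCMN : StCMN := Pool.Agent.Helper99.NO.pCMN mCAL mCRG
theorem mCPD : StCPD := Pool.Agent.Helper44.NO.pCPD mCAL
theorem mCBS : StCBS.{u} := Pool.Agent.Helper97.NO.pCBS mCAL
theorem mCPT : StCPT.{u} := Pool.Agent.Helper17.NO.pCPT mCAL mCMM mCMN mCPD mCBS
theorem mDAD : StDAD.{u} := Pool.Agent.Helper6.NO.pDAD
theorem mDOR : StDOR.{u} := Pool.Agent.Helper64.NO.pDOR mDAD mCBS mHPR
theorem mDGR : StDGR.{u} := Pool.Agent.Helper52.NO.pDGR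
theorem mDPO : StDPO := Pool.Agent.Helper8.NO.pDPO
theorem mDCU : StDCU := pDCU mNIL
theorem mDFI : StDFI.{u} :=
  Pool.Agent.Helper95.NO.pDFI mNIL mIFA mRES mCPT mDAD mDOR mDCU mDPO mDGR mCBS

end Pool.Agent.Helper67.NO
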