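import Mathlib

/-!
# Project NO (MP_26be5b_ag): the definitions used in the final statement

`g` is a finite-dimensional complex Lie algebra.
-/

set_option autoImplicit false

namespace Pool.Agent.Helper67.NO

open scoped ContDiff ComplexOrder

universe u

variable {g : Type u} [LieRing g] [LieAlgebra ℂ g] [FiniteDimensional ℂ g]

/-- `exp (ad x)`, an endomorphism of `g`, computed in a basis (the result does not depend on it) -/
noncomputable def expAd (x : g) : g →ₗ[ℂ] g :=
  Matrix.toLin (Module.finBasis ℂ g) (Module.finBasis ℂ g) (NormedSpace.exp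
    (LinearMap.toMatrix (Module.finBasis ℂ g) (Module.finBasis ℂ g) (LieAlgebra.ad ℂ g x)))

/-- the orbit of `x₀` under the adjoint group, the group generated by all `exp (ad x)` -/
inductive Orb (x₀ : g) : g → Prop
  | base : Orb x₀ x₀
  | step (y x : g) : Orb x₀ y → Orb x₀ (expAd x y)

/-- the norm of `x` given by the absolute values of its coordinates in a basis -/
noncomputable def size (x : g) : ℝ := ∑ i, ‖(Module.finBasis ℂ g).repr x i‖

/-- the point of the orbit of `x` with exponential coordinates `w`, for directions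
`X : Fin k → g` -/
noncomputable def chart {k : ℕ} (x : g) (X : Fin k → g) (w : Fin k → ℂ) : g :=
  expAd (∑ j, w j • X j) x

/-- second derivative at `0` of a function on `ℂ^k`, in the real directions `v`, `w` -/
noncomputable def D2 {k : ℕ} (f : (Fin k → ℂ) → ℝ) (v w : Fin k → ℂ) : ℝ :=
  fderiv ℝ (fun p => fderiv ℝ f p v) 0 w

/-- the complex Hessian at `0`: the entry `(i, j)` is the derivative of `f` with respect to `z_i` and
to the conjugate of `z_j`, that is
`(f_{x_i x_j} + f_{y_i y_j} + I (f_{x_i y_j} - f_{y_i x_j})) / 4` -/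
noncomputable def chess {k : ℕ} (f : (Fin k → ℂ) → ℝ) : Matrix (Fin k) (Fin k) ℂ := fun i j =>
  (((D2 f (Pi.single i 1) (Pi.single j 1) +
      D2 f (Pi.single i Complex.I) (Pi.single j Complex.I) : ℝ) : ℂ) +
    Complex.I * ((D2 f (Pi.single i 1) (Pi.single j Complex.I) -
      D2 f (Pi.single i Complex.I) (Pi.single j 1) : ℝ) : ℂ)) / 4

/-- `ρ` is the potential of a Ricci-flat Kaehler cone metric on the orbit of `x₀`, bounded above and
below by multiples of the norm. -/
structure RicciFlatCone (x₀ : g) (ρ : g → ℝ) : Prop where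
  /-- the orbit is a cone and `ρ` is homogeneous -/
  cone : ∀ x, Orb x₀ x → ∀ c : ℂ, c ≠ 0 → Orb x₀ (c • x) ∧ ρ (c • x) = ‖c‖ * ρ x
  /-- `ρ` is comparable with the norm (so it stays bounded and bounded below at the boundary) -/
  bounded : ∃ m M : ℝ, 0 < m ∧ ∀ x, Orb x₀ x → m * size x ≤ ρ x ∧ ρ x ≤ M * size x
  /-- `ρ` is smooth along the orbit -/
  smooth : ∀ x, Orb x₀ x → ∀ (k : ℕ) (X : Fin k → g),
    ContDiff ℝ ∞ (fun w : Fin k → ℂ => ρ (chart x X w))
  /-- `ρ` is plurisubharmonic along the orbit -/
  psh : ∀ x, Orb x₀ x → ∀ (k : ℕ) (X : Fin k → g),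
    (chess (fun w : Fin k → ℂ => ρ (chart x X w))).PosSemidef
  /-- the Monge-Ampere equation: the determinant of the complex Hessian is the absolute value of the
  determinant of the Kirillov-Kostant-Souriau form `κ(x, [X_i, X_j])` -/
  flat : ∀ x, Orb x₀ x → ∀ (k : ℕ) (X : Fin k → g),
    k = Module.finrank ℂ (LinearMap.range (LieAlgebra.ad ℂ g x : g →ₗ[ℂ] g)) →
    (chess (fun w : Fin k → ℂ => ρ (chart x X w))).det =
      ((‖(Matrix.of fun i j : Fin k => killingForm ℂ g x ⁅X i, X j⁆).det‖ : ℝ) : ℂ)

end Pool.Agent.Helper67.NO
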