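import Mathlib

/-!
# Project NO (MP_26be5b_ag): Ricci-flat Kaehler cone potentials on nilpotent orbits.  Definitions

Everything is finite-dimensional matrix algebra and calculus.  All matrix spaces carry the
Frobenius norm (scope `Matrix.Norms.Frobenius`), so `‖x‖ ^ 2 = re (trace (xᴴ * x))`.
-/

set_option autoImplicit false

namespace Pool.Agent.Helper67.NO

open Matrix
open scoped Matrix.Norms.Frobenius ContDiff Topology

/-- commutator of two square matrices -/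
def br {n : Type} [Fintype n] (x y : Matrix n n ℂ) : Matrix n n ℂ := x * y - y * x

/-- the real moment map of a pair: `[a, a*] + [b, b*]` -/
def mom {n : Type} [Fintype n] (a b : Matrix n n ℂ) : Matrix n n ℂ := br a aᴴ + br b bᴴ

/-- the derivative of `mom` at `(a, b)` in the direction `(v, w)` -/
def dm {n : Type} [Fintype n] (a b v w : Matrix n n ℂ) : Matrix n n ℂ :=
  br v aᴴ + br a vᴴ + (br w bᴴ + br b wᴴ)

/-- squared norm of a pair -/
noncomputable def nsq {n : Type} [Fintype n] (a b : Matrix n n ℂ) : ℝ := ‖a‖ ^ 2 + ‖b‖ ^ 2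

/-- complex inner product of two pairs, conjugate linear in the first pair -/
def ip {n : Type} [Fintype n] (a b v w : Matrix n n ℂ) : ℂ := trace (aᴴ * v) + trace (bᴴ * w)

section Chains

variable {ι κ : Type} [Fintype ι] [DecidableEq ι] [Fintype κ] [DecidableEq κ]

/-- level of an index of `V₀ ⊕ W`: the indices in `ι` (a basis of `V₀`) have level `0`, the index
`q : κ` has level `lev q + 1`. -/
def lv (lev : κ → ℕ) : ι ⊕ κ → ℕ
  | .inl _ => 0
  | .inr q => lev q + 1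

/-- block diagonal matrix -/
def bd (x : Matrix ι ι ℂ) (y : Matrix κ κ ℂ) : Matrix (ι ⊕ κ) (ι ⊕ κ) ℂ := fromBlocks x 0 0 y

/-- `a` lowers the level by one (`a` maps the vectors of level `i + 1` to level `i`) -/
def Low (lev : κ → ℕ) (a : Matrix (ι ⊕ κ) (ι ⊕ κ) ℂ) : Prop :=
  ∀ p q, a p q ≠ 0 → lv lev q = lv lev p + 1

/-- `b` raises the level by one -/
def Rai (lev : κ → ℕ) (b : Matrix (ι ⊕ κ) (ι ⊕ κ) ℂ) : Prop :=
  ∀ p q, b p q ≠ 0 → lv lev p = lv lev q + 1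

/-- `x` preserves the level -/
def Lev0 (lev : κ → ℕ) (x : Matrix (ι ⊕ κ) (ι ⊕ κ) ℂ) : Prop :=
  ∀ p q, x p q ≠ 0 → lv lev p = lv lev q

/-- `y` (acting on `W`) preserves the level -/
def Lvl (lev : κ → ℕ) (y : Matrix κ κ ℂ) : Prop := ∀ p q, y p q ≠ 0 → lev p = lev q

/-- the chains over `A`: the Kraft-Procesi quiver equations `[a, b] = A ⊕ 0` -/
def Ch (lev : κ → ℕ) (A : Matrix ι ι ℂ) (a b : Matrix (ι ⊕ κ) (ι ⊕ κ) ℂ) : Prop :=
  Low lev a ∧ Rai lev b ∧ br a b = bd A 0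

/-- critical pairs: the real moment map vanishes outside the block of `V₀` -/
def Crit (a b : Matrix (ι ⊕ κ) (ι ⊕ κ) ℂ) : Prop := ∃ H : Matrix ι ι ℂ, mom a b = bd H 0

/-- stable pairs: `a` is injective on `W`, and `W` is contained in the image of `b` -/
def Stab (a b : Matrix (ι ⊕ κ) (ι ⊕ κ) ℂ) : Prop :=
  (∀ w : ι ⊕ κ → ℂ, (∀ p : ι, w (.inl p) = 0) → a *ᵥ w = 0 → w = 0) ∧
  (∀ w : ι ⊕ κ → ℂ, (∀ p : ι, w (.inl p) = 0) → ∃ v, b *ᵥ v = w)

/-- rank type: the rank of `A ^ (i + 1)` is the number of indices `q` with `lev q = i`.  These are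
the matrices of one nilpotent orbit of `GL(V₀)` (or none). -/
def RT (lev : κ → ℕ) (A : Matrix ι ι ℂ) : Prop :=
  ∀ i : ℕ, (A ^ (i + 1)).rank = Fintype.card {q : κ // lev q = i}

/-- the potential: infimum of the squared norm over the chains over `A` -/
noncomputable def rho (lev : κ → ℕ) (A : Matrix ι ι ℂ) : ℝ :=
  sInf {r : ℝ | ∃ a b : Matrix (ι ⊕ κ) (ι ⊕ κ) ℂ, Ch lev A a b ∧ r = nsq a b}

open Classical in
/-- the `V₀` block of the moment map of a critical chain over `A` (`0` if there is none) -/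
noncomputable def Hm (lev : κ → ℕ) (A : Matrix ι ι ℂ) : Matrix ι ι ℂ :=
  if h : ∃ a b : Matrix (ι ⊕ κ) (ι ⊕ κ) ℂ, Ch lev A a b ∧ Crit a b then
    (mom h.choose h.choose_spec.choose).toBlocks₁₁
  else 0

/-- derivative of `g ↦ Hm (g A g⁻¹)` at `g = 1` in the direction `X` -/
noncomputable def DHm (lev : κ → ℕ) (A X : Matrix ι ι ℂ) : Matrix ι ι ℂ :=
  fderiv ℝ (fun g : Matrix ι ι ℂ => Hm lev (g * A * g⁻¹)) 1 X

/-- The Levi form `B` at `A` and its algebraic properties.  `H` is the moment map at `A`, `DH X`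
its derivative in the direction `[X, A]`. -/
structure BForm (A H : Matrix ι ι ℂ) (B : Matrix ι ι ℂ → Matrix ι ι ℂ → ℂ)
    (DH : Matrix ι ι ℂ → Matrix ι ι ℂ) : Prop where
  add : ∀ X Y Z, B X (Y + Z) = B X Y + B X Z
  smul : ∀ (c : ℂ) X Y, B X (c • Y) = c * B X Y
  symm : ∀ X Y, B Y X = star (B X Y)
  nonneg : ∀ X, 0 ≤ (B X X).re
  ker : ∀ X, B X X = 0 ↔ br X A = 0
  quat : ∀ X, ∃ X', ∀ Y, B X' Y = trace (A * br X Y) ∧ trace (A * br X' Y) = - B X Y
  imag : ∀ X Y, X.IsHermitian → Y.IsHermitian → B X Y - B Y X = trace (br X Y * H)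
  real : ∀ X Y, X.IsHermitian → Y.IsHermitian → (trace (Y * DH X)).re = 2 * (B X Y).re
  levi : ∀ X, (trace (X * DH X)).re + (trace ((Complex.I • X) * DH (Complex.I • X))).re
    = 2 * (B X X).re

/-- Everything about type A that is used later (final result of part A): the potential `rho lev`
and its moment map `Hm lev` on the nilpotent orbit of rank type `lev`. -/
structure IfA (ι : Type) [Fintype ι] [DecidableEq ι] (lev : κ → ℕ) : Prop where
  bdd : ∃ m M : ℝ, 0 < m ∧ ∀ A : Matrix ι ι ℂ, RT lev A → m * ‖A‖ ≤ rho lev A ∧ rho lev A ≤ M * ‖A‖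
  hom : ∀ (A : Matrix ι ι ℂ) (c : ℂ), rho lev (c • A) = ‖c‖ * rho lev A
  smooth : ∀ A : Matrix ι ι ℂ, RT lev A → ContDiffAt ℝ ∞ (fun g : Matrix ι ι ℂ => rho lev (g * A * g⁻¹)) 1
  smoothH : ∀ A : Matrix ι ι ℂ, RT lev A → ContDiffAt ℝ ∞ (fun g : Matrix ι ι ℂ => Hm lev (g * A * g⁻¹)) 1
  herm : ∀ A : Matrix ι ι ℂ, RT lev A → (Hm lev A).IsHermitian
  grad : ∀ A : Matrix ι ι ℂ, RT lev A → ∀ X,
    fderiv ℝ (fun g : Matrix ι ι ℂ => rho lev (g * A * g⁻¹)) 1 X = 2 * (trace (X * Hm lev A)).re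
  eik : ∀ A : Matrix ι ι ℂ, RT lev A → ‖Hm lev A‖ ^ 2 = 2 * ‖A‖ ^ 2
  flow : ∀ A : Matrix ι ι ℂ, RT lev A → DHm lev A (Hm lev A) = (2 : ℂ) • br A Aᴴ
  bform : ∀ A : Matrix ι ι ℂ, RT lev A → ∃ B, BForm A (Hm lev A) B (DHm lev A)

end Chains

section Subalgebra

variable {ι : Type} [Fintype ι] [DecidableEq ι]

/-- complex subspaces of matrices closed under bracket and adjoint, and with the logarithm
property: the positive matrix `(exp X)ᴴ (exp X)` is `(exp Y) ^ 2` with `Y` Hermitian in `L`. -/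
structure GoodL (L : Submodule ℂ (Matrix ι ι ℂ)) : Prop where
  lie : ∀ X ∈ L, ∀ Y ∈ L, br X Y ∈ L
  star : ∀ X ∈ L, Xᴴ ∈ L
  pd : ∀ X ∈ L, ∃ Y ∈ L, Y.IsHermitian ∧
    NormedSpace.exp Y * NormedSpace.exp Y = (NormedSpace.exp X)ᴴ * NormedSpace.exp X

/-- `P` is the orthogonal projection onto `L` for the Hermitian form `trace (xᴴ y)` -/
structure IsPr (L : Submodule ℂ (Matrix ι ι ℂ)) (P : Matrix ι ι ℂ →ₗ[ℂ] Matrix ι ι ℂ) : Prop where
  mem : ∀ X, P X ∈ L
  fix : ∀ X ∈ L, P X = X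
  orth : ∀ X, ∀ Y ∈ L, trace (Yᴴ * (X - P X)) = 0

end Subalgebra

end Pool.Agent.Helper67.NO
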