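import Pool.Agent.Helper67.NO.Defs

/-!
# Project NO (MP_26be5b_ag): statements of part A (type A), with complete proofs

`V₀ = ℂ^ι`, `W = ℂ^κ` graded by `lev` (level `i + 1` of `U = V₀ ⊕ W` is spanned by the `q : κ` with
`lev q = i`, level `0` is `V₀`).  For square matrices `Ξ, a, b` over `U` we say that `Ξ` acts on the
pair `z = (a, b)` by `Ξ z = (br Ξ a, br Ξ b)`; this is the derivative of conjugation.
-/

set_option autoImplicit false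

namespace Pool.Agent.Helper67.NO

open Matrix
open scoped Matrix.Norms.Frobenius ContDiff Topology

/-- **BL** (blocks and levels).  Proof: entries; `x * bd h y` and `bd h y * x` only mix indices of
equal level, a level preserving matrix has no entries between `ι` (level `0`) and `κ` (levels
`≥ 1`); products: an entry of `a * aᴴ` at `(p, q)` needs `r` with `lv r = lv p + 1 = lv q + 1`, etc.;
`mom a b` is Hermitian. -/
def StBL : Prop :=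
  ∀ (ι κ : Type) [Fintype ι] [DecidableEq ι] [Fintype κ] [DecidableEq κ] (lev : κ → ℕ),
  (∀ x : Matrix (ι ⊕ κ) (ι ⊕ κ) ℂ, Lev0 lev x ↔ ∃ h y, Lvl lev y ∧ x = bd h y) ∧
  (∀ a, Low lev a → ∀ x : Matrix ι ι ℂ, a * bd x 0 = 0 ∧ bd x 0 * aᴴ = 0) ∧
  (∀ b, Rai lev b → ∀ x : Matrix ι ι ℂ, bd x 0 * b = 0 ∧ bᴴ * bd x 0 = 0) ∧
  (∀ a, Low lev a → ∀ (x : Matrix ι ι ℂ) y, Lvl lev y → Low lev (bd x y * a) ∧ Low lev (a * bd x y)) ∧
  (∀ b, Rai lev b → ∀ (x : Matrix ι ι ℂ) y, Lvl lev y → Rai lev (bd x y * b) ∧ Rai lev (b * bd x y)) ∧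
  (∀ a : Matrix (ι ⊕ κ) (ι ⊕ κ) ℂ, (Low lev a ↔ Rai lev aᴴ) ∧ (Rai lev a ↔ Low lev aᴴ)) ∧
  (∀ a b : Matrix (ι ⊕ κ) (ι ⊕ κ) ℂ, Low lev a → Rai lev b →
    ∃ h y, Lvl lev y ∧ mom a b = bd h y ∧ h.IsHermitian ∧ y.IsHermitian) ∧
  (∀ a b v w : Matrix (ι ⊕ κ) (ι ⊕ κ) ℂ, Low lev a → Rai lev b → Low lev v → Rai lev w →
    (∃ h y, Lvl lev y ∧ br v aᴴ + br w bᴴ = bd h y) ∧ (∃ h y, Lvl lev y ∧ br v b + br a w = bd h y) ∧
    (∃ h y, Lvl lev y ∧ dm a b v w = bd h y))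

/-- **LVL** (the algebra of level preserving matrices on `W`).  Proof: `Lvl lev y` iff `y` commutes
with the diagonal matrix `diagonal (fun q => (lev q : ℂ))` (the entries of the commutator are
`(lev p - lev q) * y p q`), and the commutant is closed under all these operations
(`Commute.exp_right`, inverse of a unit, adjoint because the diagonal matrix is real). -/
def StLVL : Prop :=
  ∀ (κ : Type) [Fintype κ] [DecidableEq κ] (lev : κ → ℕ),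
  Lvl lev (1 : Matrix κ κ ℂ) ∧ Lvl lev (0 : Matrix κ κ ℂ) ∧
  (∀ x y : Matrix κ κ ℂ, Lvl lev x → Lvl lev y → Lvl lev (x + y) ∧ Lvl lev (x * y)) ∧
  (∀ (c : ℂ) (x : Matrix κ κ ℂ), Lvl lev x → Lvl lev (c • x)) ∧
  (∀ x : Matrix κ κ ℂ, Lvl lev x → Lvl lev (-x) ∧ Lvl lev xᴴ ∧ Lvl lev (NormedSpace.exp x)) ∧
  (∀ x : Matrix κ κ ℂ, IsUnit x → Lvl lev x → Lvl lev x⁻¹)

/-- **BDA** (algebra of `bd`).  Proof: `fromBlocks_multiply`, etc.; the exponential: `bd` is a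
continuous ring homomorphism `M_ι × M_κ → M_{ι ⊕ κ}` (or: `exp` of a block diagonal matrix). -/
def StBDA : Prop :=
  ∀ (ι κ : Type) [Fintype ι] [DecidableEq ι] [Fintype κ] [DecidableEq κ],
  (∀ (x x' : Matrix ι ι ℂ) (y y' : Matrix κ κ ℂ), bd x y * bd x' y' = bd (x * x') (y * y') ∧
    bd x y + bd x' y' = bd (x + x') (y + y') ∧ bd x y - bd x' y' = bd (x - x') (y - y') ∧
    br (bd x y) (bd x' y') = bd (br x x') (br y y')) ∧
  (∀ (x : Matrix ι ι ℂ) (y : Matrix κ κ ℂ), (bd x y)ᴴ = bd xᴴ yᴴ ∧ - bd x y = bd (-x) (-y) ∧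
    trace (bd x y) = trace x + trace y ∧
    NormedSpace.exp (bd x y) = bd (NormedSpace.exp x) (NormedSpace.exp y)) ∧
  (∀ (c : ℂ) (x : Matrix ι ι ℂ) (y : Matrix κ κ ℂ), c • bd x y = bd (c • x) (c • y)) ∧
  (bd (1 : Matrix ι ι ℂ) (1 : Matrix κ κ ℂ) = 1) ∧ (bd (0 : Matrix ι ι ℂ) (0 : Matrix κ κ ℂ) = 0) ∧
  (∀ (x x' : Matrix ι ι ℂ) (y y' : Matrix κ κ ℂ), bd x y = bd x' y' → x = x' ∧ y = y') ∧
  (∀ (x : Matrix ι ι ℂ) (y : Matrix κ κ ℂ), IsUnit x → IsUnit y →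
    IsUnit (bd x y) ∧ (bd x y)⁻¹ = bd x⁻¹ y⁻¹)

/-- **ALG** (trace identities, all by `simp [br, ...]`, cyclicity of the trace and `ring`-like
rearrangement; write `m = br v aᴴ + br w bᴴ`, so that `dm a b v w = m + mᴴ`).
(1) `tr ([x,a][y,b]) - tr ([x,b][y,a]) = tr (x [a,[y,b]] - x [b,[y,a]]) = tr (x [y,[a,b]])`
(Jacobi) `= tr ([x,y][a,b])`.
(2) `tr (([x,a])ᴴ v) = tr ((aᴴ xᴴ - xᴴ aᴴ) v) = tr (xᴴ (v aᴴ - aᴴ v))`.
(3) `tr (x m) = ip (xᴴ z) (v, w)` by (2), `tr (x mᴴ) = star (tr (xᴴ m))`.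
(4) definition of the Frobenius norm.  (5) for Hermitian `x, y`: by (2) the left side is
`tr (x (br [y,a] aᴴ + br [y,b] bᴴ)) - tr (y (br [x,a] aᴴ + br [x,b] bᴴ)) = tr ([x,y] mom)`.
(6) for `Kᴴ = -K`: `(br K a)ᴴ = br aᴴ Kᴴ = br K aᴴ`, so
`dm = br (br K a) aᴴ + br a (br K aᴴ) + ... = br K (br a aᴴ) + ...` by Jacobi. -/
def StALG : Prop :=
  ∀ (n : Type) [Fintype n] [DecidableEq n],
  (∀ x y a b : Matrix n n ℂ,
    trace (br x a * br y b) - trace (br x b * br y a) = trace (br x y * br a b)) ∧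
  (∀ x a b v w : Matrix n n ℂ, ip (br x a) (br x b) v w = trace (xᴴ * (br v aᴴ + br w bᴴ))) ∧
  (∀ x a b v w : Matrix n n ℂ,
    trace (x * dm a b v w) = ip (br xᴴ a) (br xᴴ b) v w + star (ip (br x a) (br x b) v w)) ∧
  (∀ a b : Matrix n n ℂ, ip a b a b = (nsq a b : ℂ)) ∧
  (∀ x y a b : Matrix n n ℂ, x.IsHermitian → y.IsHermitian →
    ip (br x a) (br x b) (br y a) (br y b) - ip (br y a) (br y b) (br x a) (br x b)
      = trace (br x y * mom a b)) ∧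
  (∀ K a b : Matrix n n ℂ, Kᴴ = -K → dm a b (br K a) (br K b) = br K (mom a b)) ∧
  (∀ x a b : Matrix n n ℂ, ip a b (br x a) (br x b) = trace (x * mom a b)) ∧
  (∀ a b v w : Matrix n n ℂ, ip v w a b = star (ip a b v w)) ∧
  (∀ a b : Matrix n n ℂ, nsq a b = 0 → a = 0 ∧ b = 0)

/-- **EIK** (eikonal equation).  Proof.  Put `S = a aᴴ - bᴴ b`, `S' = aᴴ a - b bᴴ`, `R = a b`,
`R' = b a`.  Then `S = S' + bd H 0`, `R = R' + bd A 0`, and `S' * bd H 0 = 0`, `bd H 0 * S' = 0`,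
`R' * bd A 0 = 0`, `bd A 0 * R' = 0` and the same for the adjoints (BL: `a * bd x 0 = 0`,
`bᴴ * bd x 0 = 0`, ...).  Cyclicity of the trace gives
`tr (S²) - tr (S'²) = -2 tr (a aᴴ bᴴ b) + 2 tr (aᴴ a b bᴴ) = 2 (‖R‖² - ‖R'‖²)`, because
`‖a b‖² = tr (bᴴ aᴴ a b) = tr (aᴴ a b bᴴ)` and `‖b a‖² = tr (aᴴ bᴴ b a) = tr (a aᴴ bᴴ b)`.  By the
vanishing products `tr (S²) - tr (S'²) = tr (H²) = ‖H‖²` (`H` is Hermitian) and
`‖R‖² - ‖R'‖² = ‖A‖²`. -/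
def StEIK : Prop :=
  ∀ (ι κ : Type) [Fintype ι] [DecidableEq ι] [Fintype κ] [DecidableEq κ] (lev : κ → ℕ)
    (A H : Matrix ι ι ℂ) (a b : Matrix (ι ⊕ κ) (ι ⊕ κ) ℂ),
  Ch lev A a b → mom a b = bd H 0 → H.IsHermitian ∧ ‖H‖ ^ 2 = 2 * ‖A‖ ^ 2

/-- **FLW** (flow identity).  Proof.  Symbols of EIK.  `S` preserves levels, so `S = bd h η`, and
`S = S' + bd H 0` with `S' * bd 1 0 = 0` gives `h = H`; `η` is Hermitian and `Lvl`.  We show
`dm a b (br S a) (br S b) = bd (2 • br A Aᴴ) 0`.  Since `a * bd H 0 = 0` and `bd H 0 * b = 0`: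
`br S a = S a - a S = S a - a S' = a b bᴴ - bᴴ b a = R bᴴ - bᴴ R'` and
`br S b = S b - b S = S' b - b S = aᴴ a b - b a aᴴ = aᴴ R - R' aᴴ`.  Hence
`br (br S a) aᴴ + br (br S b) bᴴ = (R bᴴ aᴴ - bᴴ R' aᴴ - aᴴ R bᴴ + aᴴ bᴴ R') + (aᴴ R bᴴ - R' aᴴ bᴴ
- bᴴ aᴴ R + bᴴ R' aᴴ) = R Rᴴ - Rᴴ R + R'ᴴ R' - R' R'ᴴ` (as `Rᴴ = bᴴ aᴴ`, `R'ᴴ = aᴴ bᴴ`), and with
`R = R' + bd A 0` and the vanishing products this is `bd (A Aᴴ - Aᴴ A) 0`.  Add the adjoint. -/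
def StFLW : Prop :=
  ∀ (ι κ : Type) [Fintype ι] [DecidableEq ι] [Fintype κ] [DecidableEq κ] (lev : κ → ℕ)
    (A H : Matrix ι ι ℂ) (a b : Matrix (ι ⊕ κ) (ι ⊕ κ) ℂ),
  Ch lev A a b → mom a b = bd H 0 → ∃ η : Matrix κ κ ℂ, Lvl lev η ∧ η.IsHermitian ∧
    dm a b (br (bd H η) a) (br (bd H η) b) = bd ((2 : ℂ) • br A Aᴴ) 0

/-- **RNK** (rank type implies stable).  Proof.  Vectors `w : ι ⊕ κ → ℂ`; `V₀` = vectors supported
on `ι`, `W_i` = vectors supported on `{inr q | lev q = i}`, of dimension `n_i = card {q | lev q = i}`.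
`b` maps `V₀` to `W_0` and `W_i` to `W_{i+1}`, `a` maps `W_{i+1}` to `W_i`, `W_0` to `V₀` and kills
`V₀`.  On `V₀` we have `a b = A` (as `a` kills `V₀`), on `W` we have `a b = b a`.  Hence for
`v ∈ V₀`: `a b^(i+1) v = b^i A v` and so `a^(i+1) b^(i+1) v = A^(i+1) v`.  By `RT` the rank of
`A^(i+1)` is `n_i = dim W_i`, so `b^(i+1) : V₀ → W_i` is surjective and `a^(i+1) : W_i → V₀` is
injective.  (i) If `w` vanishes on `ι` and `a w = 0`, write `w = ∑ w_i`, `w_i ∈ W_i`; the vectors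
`a w_i` have different levels, so `a w_i = 0`, `a^(i+1) w_i = 0`, `w_i = 0`.  (ii) `w = ∑ w_i`,
`w_i = b^(i+1) v_i = b (b^i v_i)`. -/
def StRNK : Prop :=
  ∀ (ι κ : Type) [Fintype ι] [DecidableEq ι] [Fintype κ] [DecidableEq κ] (lev : κ → ℕ)
    (A : Matrix ι ι ℂ) (a b : Matrix (ι ⊕ κ) (ι ⊕ κ) ℂ), RT lev A → Ch lev A a b → Stab a b

/-- **GEN** (consequences of stability).  (1) a subspace `K` of `U` which contains `V₀` and is
`b`-stable is everything: every `w` is `w₀ + b v` with `w₀ ∈ V₀`, `v` arbitrary (split off the `V₀`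
part and use stability), so `U = V₀ + b U = V₀ + b V₀ + b² U = ...`, and `b` is nilpotent because it
raises levels and the levels are bounded.  (2) if `Θ = bd 0 θ` commutes with `b`, its kernel contains
`V₀` and is `b`-stable, so `Θ = 0`. -/
def StGEN : Prop :=
  ∀ (ι κ : Type) [Fintype ι] [DecidableEq ι] [Fintype κ] [DecidableEq κ] (lev : κ → ℕ)
    (a b : Matrix (ι ⊕ κ) (ι ⊕ κ) ℂ), Rai lev b → Stab a b →
  (∀ K : Submodule ℂ (ι ⊕ κ → ℂ), (∀ w : ι ⊕ κ → ℂ, (∀ q : κ, w (.inr q) = 0) → w ∈ K) →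
    (∀ w ∈ K, b *ᵥ w ∈ K) → K = ⊤) ∧
  (∀ θ : Matrix κ κ ℂ, br (bd 0 θ) b = 0 → θ = 0)

/-- **ORB** (one orbit).  Proof (symbols of RNK for both chains; `b^(i+1) : V₀ → W_i` is
surjective, `a'^(i+1)` is injective on `W_i`).  For `q : κ` with `lev q = i` choose `v_q ∈ V₀` with
`b^(i+1) v_q = e_q`, and let the column `q` of `u` be `b'^(i+1) v_q` (a vector of `W_i`).  Then
`u b^(i+1) v = b'^(i+1) v` for all `v ∈ V₀`: the difference `v - ∑ c_q v_q` (with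
`b^(i+1) v = ∑ c_q e_q`) is killed by `b^(i+1)`, hence by `A^(i+1) = a^(i+1) b^(i+1)
= a'^(i+1) b'^(i+1)`, hence by `b'^(i+1)`.  With `G = bd 1 u`: `G b = b' G` and `G a = a' G` on
`V₀` and on all `b^(i+1) v` (`a b^(i+1) v = b^i A v`), which span.  The same construction with the
chains exchanged gives `u'` with `u' u = 1` (both send `b^(i+1) v` to `b'^(i+1) v` and back). -/
def StORB : Prop :=
  ∀ (ι κ : Type) [Fintype ι] [DecidableEq ι] [Fintype κ] [DecidableEq κ] (lev : κ → ℕ)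
    (A : Matrix ι ι ℂ) (a b a' b' : Matrix (ι ⊕ κ) (ι ⊕ κ) ℂ),
  RT lev A → Ch lev A a b → Ch lev A a' b' → ∃ u : Matrix κ κ ℂ, IsUnit u ∧ Lvl lev u ∧
    bd 1 u * a = a' * bd 1 u ∧ bd 1 u * b = b' * bd 1 u

/-- **CHN** (existence of a chain with a norm bound).  Proof.  For each `i` choose an orthonormal
basis of the image of `A^(i+1)` indexed by `{q // lev q = i}` (possible by `RT`); let `Q` be the
`ι × κ` matrix with these columns and `Q' = [1 | Q]` (an `ι × (ι ⊕ κ)` matrix); `Q'_i` denotes the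
columns of level `i` of `Q'`, so `Q'_i Q'_iᴴ` is the orthogonal projection onto the image of `A^i`
(`i ≥ 0`).  Put `a p q = (Q'ᴴ Q') p q` if `lv q = lv p + 1` (else `0`) and
`b p q = (Q'ᴴ A Q') p q` if `lv p = lv q + 1` (else `0`).  For `p, q` of level `i`:
`(a b) p q = (Q'_iᴴ (Q'_{i+1} Q'_{i+1}ᴴ) A Q'_i) p q = (Q'_iᴴ A Q'_i) p q` because `A Q'_i` has
columns in the image of `A^(i+1)`, and for `i ≥ 1`
`(b a) p q = (Q'_iᴴ A (Q'_{i-1} Q'_{i-1}ᴴ) Q'_i) p q = (Q'_iᴴ A Q'_i) p q` because the image of `A^i`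
is contained in the image of `A^(i-1)`; for `i = 0`, `b a` is `0` on `V₀` and `Q'_0 = 1`.  So
`br a b = bd A 0` (entries between different levels vanish by degree).  Norms: the columns of `Q'_i`
are orthonormal, so `‖a‖² = ∑_i ‖Q'_iᴴ Q'_{i+1}‖² ≤ ∑_i n_i = card κ` and
`‖b‖² = ∑_i ‖Q'_{i+1}ᴴ A Q'_i‖² ≤ (number of levels) ‖A‖² ≤ (card κ) ‖A‖²`; any bound of the shape
`C (1 + ‖A‖²)` with `C = (card ι + card κ + 1) ^ 3` is fine. -/
def StCHN : Prop :=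
  ∀ (ι κ : Type) [Fintype ι] [DecidableEq ι] [Fintype κ] [DecidableEq κ] (lev : κ → ℕ)
    (A : Matrix ι ι ℂ), RT lev A → ∃ a b : Matrix (ι ⊕ κ) (ι ⊕ κ) ℂ, Ch lev A a b ∧
    nsq a b ≤ ((Fintype.card ι + Fintype.card κ + 1 : ℕ) : ℝ) ^ 3 * (1 + ‖A‖ ^ 2)

/-- **MIN** (minimizers, homogeneity, bounds; uses CHN, BL, ALG).  (1) the set of chains over `A` is
closed and (CHN) nonempty, `nsq` is continuous and proper, so `rho lev A = nsq a b` for some chain.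
For `η : Matrix κ κ ℂ` Hermitian with `Lvl lev η` and real `t` the pair
`(G a G⁻¹, G b G⁻¹)`, `G = exp (t • bd 0 η) = bd 1 (exp (t • η))`, is again a chain over `A`, and
`f(t) = nsq` of it has derivative `2 re (ip a b (br (bd 0 η) a) (br (bd 0 η) b))
= 2 re tr (bd 0 η * mom a b)` at `0`; it is `0` by minimality.  `mom a b = bd h y` (BL) with `y`
Hermitian and `Lvl`; take `η = y`: `tr (y y) = 0`, so `y = 0`.  (2) homogeneity: for `c ≠ 0` choose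
`s` with `s ^ 2 = c`; `(a, b) ↦ (s • a, s • b)` is a bijection of the chains over `A` and over
`c • A`, and `nsq` is multiplied by `‖s‖ ^ 2 = ‖c‖`; `rho lev 0 = 0` (the chain `(0, 0)`).
(3) lower bound: `bd A 0 = a b - b a` and on `V₀` it is `a b` (`b a * bd 1 0 = 0`), so
`‖A‖ ≤ ‖a b‖ ≤ ‖a‖ ‖b‖ ≤ nsq a b / 2`.  (4) upper bound: for `A ≠ 0` apply CHN to `A / ‖A‖` (`RT` is
invariant under nonzero scalars) and homogeneity; if `A = 0` then `rho = 0`. -/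
def StMIN : Prop :=
  ∀ (ι κ : Type) [Fintype ι] [DecidableEq ι] [Fintype κ] [DecidableEq κ] (lev : κ → ℕ),
  (∀ A : Matrix ι ι ℂ, RT lev A → ∃ a b : Matrix (ι ⊕ κ) (ι ⊕ κ) ℂ,
    Ch lev A a b ∧ Crit a b ∧ rho lev A = nsq a b) ∧
  (∀ (A : Matrix ι ι ℂ) (c : ℂ), rho lev (c • A) = ‖c‖ * rho lev A) ∧
  (∀ A : Matrix ι ι ℂ, RT lev A → 2 * ‖A‖ ≤ rho lev A ∧
    rho lev A ≤ 2 * ((Fintype.card ι + Fintype.card κ + 1 : ℕ) : ℝ) ^ 3 * ‖A‖)

/-- **KNI** (Kempf-Ness inequality).  Proof.  `P = uᴴ u` is positive definite: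
`P = V diag(l) Vᴴ`, `V` unitary, `l > 0`.  Put `U = bd 1 V`, `L : ι ⊕ κ → ℝ` equal to `1` on `ι` and
to `l` on `κ`, `a' = Uᴴ a U`, `b' = Uᴴ b U`.  With `G = bd 1 u`, `GᴴG = U diag(L) Uᴴ`:
`‖G a G⁻¹‖² = tr (GᴴG a (GᴴG)⁻¹ aᴴ) = ∑ (L p / L q) ‖a' p q‖² ≥ ∑ (1 + log (L p) - log (L q))
‖a' p q‖²` (`x ≥ 1 + log x`), and the same for `b`.  The sum of the right sides is
`nsq a b + ∑_p log (L p) * re (mom a' b') p p`, and `mom a' b' = Uᴴ (mom a b) U = bd H 0`, whose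
diagonal entries vanish on `κ`, while `log (L p) = 0` on `ι`. -/
def StKNI : Prop :=
  ∀ (ι κ : Type) [Fintype ι] [DecidableEq ι] [Fintype κ] [DecidableEq κ]
    (a b : Matrix (ι ⊕ κ) (ι ⊕ κ) ℂ) (u : Matrix κ κ ℂ), Crit a b → IsUnit u →
    nsq a b ≤ nsq (bd 1 u * a * (bd 1 u)⁻¹) (bd 1 u * b * (bd 1 u)⁻¹)

/-- **CRI** (critical chains are minimal), from ORB and KNI. -/
def StCRI : Prop :=
  ∀ (ι κ : Type) [Fintype ι] [DecidableEq ι] [Fintype κ] [DecidableEq κ] (lev : κ → ℕ)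
    (A : Matrix ι ι ℂ) (a b : Matrix (ι ⊕ κ) (ι ⊕ κ) ℂ), RT lev A → Ch lev A a b → Crit a b →
    rho lev A = nsq a b

end Pool.Agent.Helper67.NO
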