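import Pool.Agent.Helper67.NO.St1

/-!
# Project NO (MP_26be5b_ag): statements of part A (type A), second batch, with complete proofs

For a square matrix `Ξ` over `U = V₀ ⊕ W` and a pair `z = (a, b)` we write `Ξ z = (br Ξ a, br Ξ b)` and
`m(Ξ) = br (br Ξ a) aᴴ + br (br Ξ b) bᴴ`.
-/

set_option autoImplicit false

namespace Pool.Agent.Helper67.NO

open Matrix
open scoped Matrix.Norms.Frobenius ContDiff Topology

/-- **IFT** (implicit function theorem; hypotheses BL, LVL, BDA, ALG, GEN).  Proof.  Let `p` be the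
real subspace of `Matrix κ κ ℂ` of the Hermitian `y` with `Lvl lev y`, and `pr : Matrix κ κ ℂ → p` the
real linear projection (`(y + yᴴ) / 2` with the entries between different levels deleted).  For
`(g, y)` near `(1, 0)` in `Matrix ι ι ℂ × p` put `G = bd g (exp y)` and
`Ψ (g, y) = pr (toBlocks₂₂ (mom (G a G⁻¹) (G b G⁻¹)))`.  `Ψ` is `C^∞` at `(1, 0)` (exp is `C^∞`, the
inverse is `C^∞` at invertible matrices, everything else is real polynomial) and `Ψ (1, 0) = 0` by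
`Crit`.  Its derivative in the direction `(0, η)` is `pr (toBlocks₂₂ (dm a b (br (bd 0 η) a)
(br (bd 0 η) b)))`.  It is injective in `η`: `dm ... = bd h y` with `Lvl lev y` (BL) and `y` is
Hermitian, so `pr y = y`; if it is `0` then `0 = tr (bd 0 η * dm ...) = 2 ip (br (bd 0 η) a)
(br (bd 0 η) b) (br (bd 0 η) a) (br (bd 0 η) b)` (ALG (3), `η` Hermitian) so `br (bd 0 η) b = 0` and
`η = 0` (GEN (2)).  An injective endomorphism of the finite-dimensional `p` is invertible, and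
`ContDiffAt.implicitFunction` gives `ξ`, `C^∞` at `1`, `ξ 1 = 0`, `Ψ (g, ξ g) = 0` for `g` near `1`
(`ξ` takes values in `p`).  There `G` is invertible with inverse `bd g⁻¹ (exp (- ξ g))`, so
`G a G⁻¹`, `G b G⁻¹` are `Low`, `Rai` (BL, LVL) and `mom = bd h y` with `y` Hermitian and `Lvl`
(BL), hence `y = pr y = 0`. -/
def StIFT : Prop :=
  ∀ (ι κ : Type) [Fintype ι] [DecidableEq ι] [Fintype κ] [DecidableEq κ] (lev : κ → ℕ)
    (a b : Matrix (ι ⊕ κ) (ι ⊕ κ) ℂ), Low lev a → Rai lev b → Stab a b → Crit a b →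
  ∃ ξ : Matrix ι ι ℂ → Matrix κ κ ℂ, ContDiffAt ℝ ∞ ξ 1 ∧ ξ 1 = 0 ∧
    ∀ᶠ g in 𝓝 (1 : Matrix ι ι ℂ), IsUnit g ∧ Lvl lev (ξ g) ∧ (ξ g).IsHermitian ∧
      Crit (bd g (NormedSpace.exp (ξ g)) * a * (bd g (NormedSpace.exp (ξ g)))⁻¹)
        (bd g (NormedSpace.exp (ξ g)) * b * (bd g (NormedSpace.exp (ξ g)))⁻¹)

/-- **SM1** (the potential is smooth, its gradient; hypotheses BL, LVL, BDA, ALG, RNK, MIN, CRI, IFT).
Proof.  Let `(a, b)` be ANY critical chain over `A`, `mom a b = bd H 0` (one exists by MIN); it is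
stable (RNK).  Take `ξ` from IFT and `G = bd g (exp (ξ g))`.  For `g` near `1`,
`(G a G⁻¹, G b G⁻¹)` is a critical chain over `g A g⁻¹` (`Low`, `Rai` by BL, LVL, BDA;
`br (G a G⁻¹) (G b G⁻¹) = G (bd A 0) G⁻¹ = bd (g A g⁻¹) 0`) and `RT lev (g A g⁻¹)` (ranks of powers
are invariant), so by CRI `rho lev (g A g⁻¹) = nsq (G a G⁻¹) (G b G⁻¹)`, which is `C^∞` at `g = 1`
(the squared Frobenius norm is `re tr (xᴴ x)`).  The derivative at `1` in the direction `X`: `G` has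
derivative `bd X η`, `η = fderiv ξ 1 X` (`exp` has derivative the identity at `0`), `G a G⁻¹` has
derivative `br (bd X η) a` and `nsq` has derivative
`2 re (ip a b (br (bd X η) a) (br (bd X η) b)) = 2 re tr (bd X η * mom a b) = 2 re tr (X H)` (ALG (7)).
Two critical chains over `A` with blocks `H`, `H'` give the same derivative, so
`re tr (X (H - H')) = 0` for all `X`, `H = H'`.  Hence `Hm lev A = H`. -/
def StSM1 : Prop :=
  ∀ (ι κ : Type) [Fintype ι] [DecidableEq ι] [Fintype κ] [DecidableEq κ] (lev : κ → ℕ)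
    (A : Matrix ι ι ℂ), RT lev A →
  ContDiffAt ℝ ∞ (fun g : Matrix ι ι ℂ => rho lev (g * A * g⁻¹)) 1 ∧
  ∀ (a b : Matrix (ι ⊕ κ) (ι ⊕ κ) ℂ) (H : Matrix ι ι ℂ), Ch lev A a b → mom a b = bd H 0 →
    Hm lev A = H ∧
    ∀ X, fderiv ℝ (fun g : Matrix ι ι ℂ => rho lev (g * A * g⁻¹)) 1 X = 2 * (trace (X * H)).re

/-- **SM2** (the moment map is smooth, its derivative; hypotheses BL, LVL, BDA, ALG, RNK, MIN, CRI,
IFT, SM1).  Proof.  Take the critical chain of MIN and the objects of the proof of SM1.  For `g` near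
`1` the pair `(G a G⁻¹, G b G⁻¹)` is a critical chain over `g A g⁻¹` and `RT lev (g A g⁻¹)`, so by
SM1 at `g A g⁻¹`: `mom (G a G⁻¹) (G b G⁻¹) = bd (Hm lev (g A g⁻¹)) 0`.  The left side is `C^∞` at `1`
with derivative `dm a b (br (bd X η) a) (br (bd X η) b)` in the direction `X`, `η = fderiv ξ 1 X`;
`η` is Hermitian and `Lvl` as a limit of difference quotients of such matrices (`ξ 1 = 0`; these
matrices form a closed real subspace).  Take blocks. -/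
def StSM2 : Prop :=
  ∀ (ι κ : Type) [Fintype ι] [DecidableEq ι] [Fintype κ] [DecidableEq κ] (lev : κ → ℕ)
    (A : Matrix ι ι ℂ), RT lev A →
  ContDiffAt ℝ ∞ (fun g : Matrix ι ι ℂ => Hm lev (g * A * g⁻¹)) 1 ∧ (Hm lev A).IsHermitian ∧
  ∃ a b : Matrix (ι ⊕ κ) (ι ⊕ κ) ℂ, Ch lev A a b ∧ Stab a b ∧ mom a b = bd (Hm lev A) 0 ∧
    ∀ X, ∃ η : Matrix κ κ ℂ, Lvl lev η ∧ η.IsHermitian ∧
      dm a b (br (bd X η) a) (br (bd X η) b) = bd (DHm lev A X) 0

/-- **EXA** (exactness; hypotheses BL, BDA).  Proof.  Write `P₁ = bd 0 1`.  From `Stab` (and `a` kills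
`V₀`, `b` maps into `W`) there are matrices `a'`, `b'` with `a' a = P₁`, `b b' = P₁`; replacing them by
their level-raising, level-lowering parts (keep the entries of the right degree; `P₁` preserves
levels) we may assume `Rai lev a'`, `Low lev b'`.  Claim `E(k)`: there is a level preserving `Ξ` with
`(br Ξ a - v) e_q = 0` for all `q` with `lv q ≥ k + 1` and `(br Ξ b - w) e_q = 0` for all `q` with
`lv q ≥ k`.  For `k` larger than all levels `Ξ = 0` works.  Step `E(k) → E(k-1)`, `k ≥ 1`: put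
`N = (v + a Ξ) a' + b' (Ξ b - w) (1 - a a')` (level preserving) and let `Ξ'` be `N` on the vectors of
level `k - 1` and `Ξ` on all other levels.  (i) `lv q = k`: `a e_q` has level `k - 1` and
`Ξ' a e_q = N a e_q = (v + a Ξ) a' a e_q + b' (Ξ b - w)(a - a a' a) e_q = (v + a Ξ) e_q`, as
`a' a e_q = e_q`, `a a' a = a P₁ = a`.  (ii) `x` of level `k - 1`, `y = a' x` of level `k`:
`b N x = b (v + a Ξ) y + (Ξ b - w) x - (Ξ b - w) a y`, so we need
`(b v + w a) y = (Ξ b a - b a Ξ) y`.  By hypothesis `(v b - b v + a w - w a) y = 0` (`y ∈ W`), so the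
left side is `(v b + a w) y = ((br Ξ a) b + a (br Ξ b)) y = (Ξ a b - a b Ξ) y` by `E(k)` (`b y` has
level `k + 1`, `y` has level `k`), and `a b = b a` on `W` (`br a b = bd A 0`).  The equations of `E(k)`
are unchanged.  `E(0)` gives `br Ξ b = w` and `br Ξ a = v` (on `V₀` both sides vanish).  Finally
`Ξ = bd X η` with `Lvl lev η`. -/
def StEXA : Prop :=
  ∀ (ι κ : Type) [Fintype ι] [DecidableEq ι] [Fintype κ] [DecidableEq κ] (lev : κ → ℕ)
    (A : Matrix ι ι ℂ) (a b v w : Matrix (ι ⊕ κ) (ι ⊕ κ) ℂ), Ch lev A a b → Stab a b →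
  Low lev v → Rai lev w → (∃ C : Matrix ι ι ℂ, br v b + br a w = bd C 0) →
  ∃ (X : Matrix ι ι ℂ) (η : Matrix κ κ ℂ), Lvl lev η ∧ br (bd X η) a = v ∧ br (bd X η) b = w

/-- Horizontal lifts: `θ X` is the correction in `W` which makes `(bd X (θ X)) z` orthogonal to the
orbit of the level preserving matrices on `W`. -/
structure Hor {ι κ : Type} [Fintype ι] [DecidableEq ι] [Fintype κ] [DecidableEq κ] (lev : κ → ℕ)
    (a b : Matrix (ι ⊕ κ) (ι ⊕ κ) ℂ) (θ : Matrix ι ι ℂ → Matrix κ κ ℂ) : Prop where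
  lvl : ∀ X, Lvl lev (θ X)
  add : ∀ X Y, θ (X + Y) = θ X + θ Y
  smul : ∀ (c : ℂ) X, θ (c • X) = c • θ X
  star : ∀ X, θ Xᴴ = (θ X)ᴴ
  hor : ∀ X, ∃ h : Matrix ι ι ℂ,
    br (br (bd X (θ X)) a) aᴴ + br (br (bd X (θ X)) b) bᴴ = bd h 0
  uniq : ∀ (X : Matrix ι ι ℂ) (η : Matrix κ κ ℂ), Lvl lev η → (∃ h : Matrix ι ι ℂ,
    br (br (bd X η) a) aᴴ + br (br (bd X η) b) bᴴ = bd h 0) → η = θ X

/-- the form `B X Y = ip (bd X (θ X) z) (bd Y (θ Y) z)` -/
def BB {ι κ : Type} [Fintype ι] [DecidableEq ι] [Fintype κ] [DecidableEq κ]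
    (a b : Matrix (ι ⊕ κ) (ι ⊕ κ) ℂ) (θ : Matrix ι ι ℂ → Matrix κ κ ℂ) (X Y : Matrix ι ι ℂ) : ℂ :=
  ip (br (bd X (θ X)) a) (br (bd X (θ X)) b) (br (bd Y (θ Y)) a) (br (bd Y (θ Y)) b)

/-- **HOR** (existence of horizontal lifts; hypotheses BL, LVL, BDA, ALG, GEN).  Proof.  Uniqueness:
if `Lvl lev θ` and `m(bd 0 θ) = bd h 0` then with `u = (bd 0 θ) z`:
`nsq u = ip u u = tr ((bd 0 θ)ᴴ * m(bd 0 θ)) = tr (bd 0 θᴴ * bd h 0) = 0` (ALG (2), (4)), so
`br (bd 0 θ) b = 0`, `θ = 0` (GEN).  Existence: the linear map `T` of the complex space of `Lvl`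
matrices to itself, `T θ = toBlocks₂₂ (m(bd 0 θ))` (BL: `m(..) = bd h y` with `Lvl lev y`), is injective
by the above, so it is bijective; `θ X = T⁻¹ (- toBlocks₂₂ (m(bd X 0)))`.  Linearity from uniqueness.
Adjoint: by Jacobi `m(Ξ)ᴴ = m(Ξᴴ) + br (mom a b) Ξᴴ = m(Ξᴴ) + bd (br H Xᴴ) 0` for `Ξ = bd X θ`, so
`(θ X)ᴴ` satisfies the defining property of `θ Xᴴ`. -/
def StHOR : Prop :=
  ∀ (ι κ : Type) [Fintype ι] [DecidableEq ι] [Fintype κ] [DecidableEq κ] (lev : κ → ℕ)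
    (H : Matrix ι ι ℂ) (a b : Matrix (ι ⊕ κ) (ι ⊕ κ) ℂ), Low lev a → Rai lev b → Stab a b →
  mom a b = bd H 0 → ∃ θ : Matrix ι ι ℂ → Matrix κ κ ℂ, Hor lev a b θ

/-- **BF1** (the algebraic properties of `B`; hypotheses BL, LVL, BDA, ALG, EXA).  Proof.  Write
`v_X = (bd X (θ X)) z`, a pair, linear in `X`.  add, smul, symm, nonneg: clear (ALG (8), (4)).
quat: let `v_X = (v, w)` and `J v_X = (-wᴴ, vᴴ)` (`Low`, `Rai`).  Then
`br (-wᴴ) b + br a vᴴ = (br v aᴴ + br w bᴴ)ᴴ = bd hᴴ 0`, so by EXA `J v_X = (bd X' η) z` with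
`Lvl lev η`.  We claim `η = θ X'`: `m(bd X' η) = bd h' y'` with `Lvl lev y'`, and for `Lvl ζ`, with
`Z = bd 0 ζ`, `tr (ζᴴ y') = tr (Zᴴ m(bd X' η)) = ip (Z z) (J v_X) = star (tr (v * br Z b) -
tr (w * br Z a)) = star (tr (br (br Ξ Z) (...)))`; precisely `tr (v * br Z b) - tr (w * br Z a) =
tr (br Ξ Z * br a b)` with `Ξ = bd X (θ X)` (ALG (1)) `= tr (bd 0 (br (θ X) ζ) * bd A 0) = 0`.  Take
`ζ = y'`.  So `v_{X'} = J v_X`, and for all `Y`: `B X' Y = ip (J v_X) v_Y = tr (v v_Y.2) -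
tr (w v_Y.1) = tr (br (bd X _) (bd Y _) * bd A 0) = tr (A * br X Y)` (ALG (1)), and applying this with
`X'` in place of `X` (`J J v_X = - v_X`): `tr (A * br X' Y) = ip (J v_{X'}) v_Y = - B X Y`.
ker: if `B X X = 0` then `v_X = 0`, `v_{X'} = 0`, `tr (A * br X Y) = 0` for all `Y`, i.e.
`br A X = 0`.  Conversely if `br X A = 0` then `B X' Y = tr (A * br X Y) = 0` for all `Y`, so
`v_{X'} = J v_X = 0`, `v_X = 0`.  imag: for Hermitian `X, Y` the matrices `θ X`, `θ Y` are Hermitian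
(star), ALG (5) gives `B X Y - B Y X = tr (br (bd X _) (bd Y _) * mom a b) = tr (br X Y * H)`. -/
def StBF1 : Prop :=
  ∀ (ι κ : Type) [Fintype ι] [DecidableEq ι] [Fintype κ] [DecidableEq κ] (lev : κ → ℕ)
    (A H : Matrix ι ι ℂ) (a b : Matrix (ι ⊕ κ) (ι ⊕ κ) ℂ) (θ : Matrix ι ι ℂ → Matrix κ κ ℂ),
  Ch lev A a b → Stab a b → mom a b = bd H 0 → Hor lev a b θ →
  (∀ X Y Z, BB a b θ X (Y + Z) = BB a b θ X Y + BB a b θ X Z) ∧
  (∀ (c : ℂ) X Y, BB a b θ X (c • Y) = c * BB a b θ X Y) ∧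
  (∀ X Y, BB a b θ Y X = star (BB a b θ X Y)) ∧
  (∀ X, 0 ≤ (BB a b θ X X).re) ∧
  (∀ X, BB a b θ X X = 0 ↔ br X A = 0) ∧
  (∀ X, ∃ X', ∀ Y, BB a b θ X' Y = trace (A * br X Y) ∧ trace (A * br X' Y) = - BB a b θ X Y) ∧
  (∀ X Y, X.IsHermitian → Y.IsHermitian →
    BB a b θ X Y - BB a b θ Y X = trace (br X Y * H))

/-- **BF2** (relation of `B` with the derivative of the moment map; hypotheses BL, LVL, BDA, ALG,
GEN).  `DH` is any real additive map as in SM2.  Proof.  Write `dm(Ξ) = dm a b (br Ξ a) (br Ξ b)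
= m(Ξ) + m(Ξ)ᴴ`; it is additive in `Ξ`.  (u) If `η` is Hermitian, `Lvl` and `dm(bd 0 η) = bd D 0` then
`0 = tr (bd 0 η * dm(bd 0 η)) = 2 nsq ((bd 0 η) z)` (ALG (3), (4)), so `η = 0` (GEN).  (h) For `X`
Hermitian the `η` of `DH X` equals `θ X`: as in HOR, `m(Ξ)ᴴ = m(Ξᴴ) + bd (br H Xᴴ) 0`, so for
`Ξ = bd X η` Hermitian the `W` block `y` of `m(Ξ)` is Hermitian and the `W` block of `dm(Ξ)` is `2 y`,
so `y = 0` and `uniq` applies (or use (u) for `η - θ X`, which is Hermitian).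
real: for Hermitian `X, Y`: `tr (Y * DH X) = tr (bd Y (θ Y) * dm(bd X (θ X))) = B Y X + star (B Y X)`
(ALG (3)) `= 2 re (B X Y)`.  (s) for `Kᴴ = -K`: `dm(bd K 0) = br (bd K 0) (mom a b) = bd (br K H) 0`
(ALG (6)), so by (u) `η_K = 0` and `DH K = br K H`.  levi: write `X = P - i Q` with `P, Q` Hermitian
(`P = (X + Xᴴ)/2`, `Q = i (X - Xᴴ)/2`), so `i X = Q + i P`.  `DH X = DH P - i br Q H`,
`DH (i X) = DH Q + i br P H` (by (s); `-iQ`, `iP` are skew), `DH P`, `DH Q`, `-i br Q H`,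
`i br P H` are Hermitian, and `re tr` of (skew times Hermitian) is `0`; so
`re tr (X DH X) = tr (P DH P) - i tr (br P Q * H)` and
`re tr (i X DH (i X)) = tr (Q DH Q) - i tr (br P Q * H)`.  The sum is
`2 B P P + 2 B Q Q - 2 i (B P Q - B Q P) = 2 B (P - i Q) (P - i Q)` by real, BF1 (imag) and
sesquilinearity. -/
def StBF2 : Prop :=
  ∀ (ι κ : Type) [Fintype ι] [DecidableEq ι] [Fintype κ] [DecidableEq κ] (lev : κ → ℕ)
    (A H : Matrix ι ι ℂ) (a b : Matrix (ι ⊕ κ) (ι ⊕ κ) ℂ) (θ : Matrix ι ι ℂ → Matrix κ κ ℂ)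
    (DH : Matrix ι ι ℂ → Matrix ι ι ℂ),
  Ch lev A a b → Stab a b → mom a b = bd H 0 → Hor lev a b θ →
  (∀ X Y, DH (X + Y) = DH X + DH Y) →
  (∀ X, ∃ η : Matrix κ κ ℂ, Lvl lev η ∧ η.IsHermitian ∧
    dm a b (br (bd X η) a) (br (bd X η) b) = bd (DH X) 0) →
  (∀ X Y, X.IsHermitian → Y.IsHermitian → (trace (Y * DH X)).re = 2 * (BB a b θ X Y).re) ∧
  (∀ X, (trace (X * DH X)).re + (trace ((Complex.I • X) * DH (Complex.I • X))).re
    = 2 * (BB a b θ X X).re)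

/-- **IFA** (assembly of part A).  Proof.  bdd, hom: MIN.  smooth, grad: SM1 (with the chain of MIN or
SM2).  smoothH, herm: SM2.  eik: EIK for the chain of SM2.  flow: FLW gives `η'` (Hermitian, `Lvl`)
with `dm(bd H η') = bd (2 • br A Aᴴ) 0` and SM2 gives `η` with `dm(bd H η) = bd (DHm lev A H) 0`;
subtracting, `dm(bd 0 (η - η')) = bd D 0`, so `tr (bd 0 (η - η') * dm(bd 0 (η - η'))) = 0`, i.e.
`nsq = 0` (ALG (3), (4)), `η = η'` (GEN) and the blocks agree.  bform: HOR, BF1, BF2 with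
`DH = DHm lev A`, additive because it is a derivative. -/
def StIFA : Prop :=
  ∀ (ι κ : Type) [Fintype ι] [DecidableEq ι] [Fintype κ] [DecidableEq κ] (lev : κ → ℕ), IfA ι lev

end Pool.Agent.Helper67.NO
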