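import Pool.Agent.Helper67.NO.Defs

/-!
# Project NO (MP_26be5b_ag): statements of part B (restriction to a Lie subalgebra closed under the
adjoint), with complete proofs

`L` is a complex subspace of `Matrix ι ι ℂ` with `GoodL L`; the crux is MON: the moment map of the
type A potential at a point of `L` lies in `L`.
-/

set_option autoImplicit false

namespace Pool.Agent.Helper67.NO

open Matrix
open scoped Matrix.Norms.Frobenius ContDiff Topology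

/-- **NIL** (easy facts on rank types).  Proof.  For `i` larger than all `lev q` the rank of
`A ^ (i + 1)` is `0`, so `A ^ (i + 1) = 0`; ranks of powers are invariant under conjugation by units
and nonzero scalars. -/
def StNIL : Prop :=
  ∀ (ι κ : Type) [Fintype ι] [DecidableEq ι] [Fintype κ] [DecidableEq κ] (lev : κ → ℕ)
    (A : Matrix ι ι ℂ), RT lev A → IsNilpotent A ∧
    (∀ g : Matrix ι ι ℂ, IsUnit g → RT lev (g * A * g⁻¹)) ∧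
    (∀ c : ℂ, c ≠ 0 → RT lev (c • A))

/-- **PRO** (orthogonal projections).  Proof.  `⟨X, Y⟩ = tr (Xᴴ Y)` is a Hermitian inner product with
`⟨X, X⟩ = ‖X‖²` (transport the orthogonal projection from `EuclideanSpace ℂ (ι × ι)`).  If `L` is
closed under the adjoint, so is its orthogonal complement (`tr (Yᴴ Xᴴ) = star (tr (X Y))`,
`tr (X Y) = tr (Y X) = ⟨Yᴴ, X⟩`), hence `P Xᴴ = (P X)ᴴ`; and `P X = 0` iff `tr (Yᴴ X) = 0` for all
`Y ∈ L` iff `tr (Y X) = 0` for all `Y ∈ L`. -/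
def StPRO : Prop :=
  ∀ (ι : Type) [Fintype ι] [DecidableEq ι] (L : Submodule ℂ (Matrix ι ι ℂ)), (∀ X ∈ L, Xᴴ ∈ L) →
  ∃ P : Matrix ι ι ℂ →ₗ[ℂ] Matrix ι ι ℂ, IsPr L P ∧ (∀ X, P Xᴴ = (P X)ᴴ) ∧
    (∀ X, ‖X‖ ^ 2 = ‖P X‖ ^ 2 + ‖X - P X‖ ^ 2) ∧
    (∀ X, P X = 0 ↔ ∀ Y ∈ L, trace (Y * X) = 0)

/-- **HPR** (a nilpotent element of `L` is scaled by `L`).  Proof.  Let `R ⊆ L` be the image of
`L → L`, `Y ↦ br A Y`.  Suppose `Z ∈ L` with `tr (Zᴴ * br A Y) = 0` for all `Y ∈ L`.  Then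
`tr (br Zᴴ A * Y) = 0` for all `Y ∈ L` (`tr (Zᴴ (A Y - Y A)) = tr ((Zᴴ A - A Zᴴ) Y)`), and
`br Zᴴ A ∈ L`; taking `Y = (br Zᴴ A)ᴴ ∈ L` gives `br Zᴴ A = 0`.  So `Zᴴ` commutes with the nilpotent
`A`, `Zᴴ * A` is nilpotent and `tr (Zᴴ A) = 0`.  Hence `A` is orthogonal (for `tr (xᴴ y)`, inside
`L`) to the orthogonal complement of `R` in `L`, so `A ∈ R`: `A = br A Y = br (-Y) A`. -/
def StHPR : Prop :=
  ∀ (ι : Type) [Fintype ι] [DecidableEq ι] (L : Submodule ℂ (Matrix ι ι ℂ)),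
  (∀ X ∈ L, ∀ Y ∈ L, br X Y ∈ L) → (∀ X ∈ L, Xᴴ ∈ L) →
  ∀ A ∈ L, IsNilpotent A → ∃ h ∈ L, br h A = A

/-- **CVX** (convexity; hypothesis NIL).  Proof.  `φ s = rho lev (A_s)`,
`A_s = exp (s Y) A exp (-s Y)` (rank type `lev`).  As `A_{s+t} = exp (t Y) A_s (exp (t Y))⁻¹` and
`t ↦ exp (t Y)` has derivative `Y` at `0`, the chain rule (`smooth`, `grad` at `A_s`) gives
`φ' s = 2 re tr (Y * Hm lev A_s)`, and (`smoothH`) `s ↦ Hm lev A_s` has derivative `DHm lev A_s Y`, so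
`φ'' s = 2 re tr (Y * DHm lev A_s Y) = 4 re (B Y Y) ≥ 0` by `BForm.real` and `nonneg`.  So `φ'` is
monotone and `φ 1 ≥ φ 0 + φ' 0`. -/
def StCVX : Prop :=
  ∀ (ι κ : Type) [Fintype ι] [DecidableEq ι] [Fintype κ] [DecidableEq κ] (lev : κ → ℕ),
  IfA ι lev → ∀ A : Matrix ι ι ℂ, RT lev A → ∀ Y : Matrix ι ι ℂ, Y.IsHermitian →
    rho lev A + 2 * (trace (Y * Hm lev A)).re
      ≤ rho lev (NormedSpace.exp Y * A * NormedSpace.exp (-Y))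

/-- **LOW** (uniform descent directions; hypotheses NIL, HPR, CVX).  Proof.  Let
`m₀ ‖A‖ ≤ rho lev A ≤ M₀ ‖A‖` (`bdd`; enlarge `M₀` so that `M₀ ≥ 1`).  The set
`K = {A ∈ L | A ^ (card ι) = 0, δ ≤ ‖A‖ ≤ M}` is compact.  Let `A₁ ∈ K`.  HPR: `h ∈ L`, `br h A₁ = A₁`.
Choose `s > 0` with `M₀ * exp (-s) * M ≤ m₀ δ / 4` and put `X = -s h ∈ L`; then
`exp X * A₁ * exp (-X) = exp (-s) A₁` (the curve `A(r) = exp (-r h) A₁ exp (r h)` solves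
`A' = - br h A`, as does `exp (-r) A₁`; or `exp (X) * A₁ = exp (-s) A₁ * exp X` from
`X * A₁ = A₁ * (X - s)`).  `GoodL.pd`: `Y ∈ L` Hermitian, `exp Y exp Y = (exp X)ᴴ exp X`.  Then
`u = exp X * exp (-Y)` is unitary and `u (exp Y A₁ exp (-Y)) u⁻¹ = exp X A₁ exp (-X)`, so
`‖exp Y A₁ exp (-Y)‖ = exp (-s) ‖A₁‖`.  By continuity `M₀ ‖exp Y A exp (-Y)‖ ≤ m₀ δ / 2` for all `A`
in a neighbourhood of `A₁`.  For such `A ∈ L` of rank type `lev` with `δ ≤ ‖A‖`, CVX and `bdd`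
(the conjugate has rank type `lev`) give `m₀ δ + 2 re tr (Y Hm) ≤ m₀ δ / 2`, i.e.
`re tr (Y Hm) ≤ - m₀ δ / 4`.  Cover `K` by finitely many of these neighbourhoods, `R` = largest
`‖Y‖`, `c = m₀ δ / 4`. -/
def StLOW : Prop :=
  ∀ (ι κ : Type) [Fintype ι] [DecidableEq ι] [Fintype κ] [DecidableEq κ] (lev : κ → ℕ)
    (L : Submodule ℂ (Matrix ι ι ℂ)), IfA ι lev → GoodL L → ∀ δ M : ℝ, 0 < δ →
  ∃ c R : ℝ, 0 < c ∧ 0 < R ∧ ∀ A ∈ L, RT lev A → δ ≤ ‖A‖ → ‖A‖ ≤ M →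
    ∃ Y ∈ L, Y.IsHermitian ∧ ‖Y‖ ≤ R ∧ (trace (Y * Hm lev A)).re ≤ -c

/-- **FLO** (global existence for a descent flow on the invertible matrices; pure ODE).  Proof.  Let
`R = ‖1‖ exp (C₁ T) + 1` and `K₀ = {g | IsUnit g, ‖g‖ ≤ R, ‖g⁻¹‖ ≤ R}`, a compact subset of the open
set `Ω` of units (a limit of units with bounded inverses is a unit).  Choose a cut-off
`χ : E → [0, 1]`, Lipschitz or `C¹`, with compact support in `Ω`, equal to `1` on `K₀` (for instance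
`max 0 (1 - infDist g K₀ / ε)`), such that `v g = χ g • (K g * g)` (`0` outside `Ω`) is globally
Lipschitz and bounded (`K` is `C¹` near the compact support).  Picard-Lindeloef on `[0, T]` in a
large ball gives `y`, `y 0 = 1`, `y' = v y = B(t) y` with `B(t) = χ (y t) • K (y t)` continuous.
All `y t` are invertible: if `y t₁ x = 0`, `x ≠ 0`, then `t ↦ y t x` solves a linear equation and
vanishes at `t₁`, so it vanishes at `0`, but `y 0 x = x`.  So `t ↦ F (y t)` is differentiable with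
derivative `χ • fderiv F (y t) (K (y t) * y t) ≤ 0`, hence `F (y t) ≤ F 1`, `‖B t‖ ≤ C₁`, and
Gronwall gives `‖y t‖ ≤ ‖1‖ exp (C₁ t)`, and, as `(y⁻¹)' = - y⁻¹ B`, also
`‖(y t)⁻¹‖ ≤ ‖1‖ exp (C₁ t)`.  So `y t ∈ K₀`, `χ (y t) = 1` for all `t ∈ [0, T]`. -/
def StFLO : Prop :=
  ∀ (ι : Type) [Fintype ι] [DecidableEq ι] (K : Matrix ι ι ℂ → Matrix ι ι ℂ)
    (F : Matrix ι ι ℂ → ℝ) (C₁ T : ℝ),
  (∀ g, IsUnit g → ContDiffAt ℝ 1 K g) → (∀ g, IsUnit g → DifferentiableAt ℝ F g) →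
  (∀ g, IsUnit g → fderiv ℝ F g (K g * g) ≤ 0) → (∀ g, IsUnit g → F g ≤ F 1 → ‖K g‖ ≤ C₁) →
  0 < T →
  ∃ y : ℝ → Matrix ι ι ℂ, y 0 = 1 ∧ ∀ t ∈ Set.Icc (0 : ℝ) T, IsUnit (y t) ∧
    HasDerivWithinAt y (K (y t) * y t) (Set.Icc 0 T) t

/-- **ODE** (the flow of MON; hypotheses NIL, FLO).  Proof.  Apply FLO with
`K g = - P (Hm lev (g A g⁻¹))`, `F g = rho lev (g A g⁻¹)`.  Both are smooth at every unit `g₀`:
`g A g⁻¹ = (g g₀⁻¹) A₀ (g g₀⁻¹)⁻¹` with `A₀ = g₀ A g₀⁻¹` of rank type `lev`, and the fields `smooth`,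
`smoothH` of `IfA` at `A₀`.  For the same reason `fderiv F g (X * g) = 2 re tr (X * Hm lev (g A g⁻¹))`,
which for `X = - P H`, `H = Hm lev (g A g⁻¹)` Hermitian, is `- 2 ‖P H‖² ≤ 0` (`P H` is Hermitian, so
`tr (P H * H) = tr ((P H)ᴴ * H) = tr ((P H)ᴴ * P H)` by `orth`).  Bound: `‖P H‖ ≤ ‖H‖`,
`‖H‖² = 2 ‖g A g⁻¹‖²` (`eik`) and `m₀ ‖g A g⁻¹‖ ≤ F g ≤ F 1`.  Membership: `A_t = y t * A * (y t)⁻¹`
satisfies `A_t' = br (K (y t)) A_t`; as `K (y t) ∈ L` and `br L L ⊆ L`, the function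
`Q_t = A_t - P A_t` satisfies `Q_t' = br K Q_t - P (br K Q_t)` (the part of `A_t` in `L` does not
contribute), a linear equation, and `Q_0 = 0`, so `Q_t = 0` (Gronwall). -/
def StODE : Prop :=
  ∀ (ι κ : Type) [Fintype ι] [DecidableEq ι] [Fintype κ] [DecidableEq κ] (lev : κ → ℕ)
    (L : Submodule ℂ (Matrix ι ι ℂ)) (P : Matrix ι ι ℂ →ₗ[ℂ] Matrix ι ι ℂ),
  IfA ι lev → GoodL L → IsPr L P → (∀ X, P Xᴴ = (P X)ᴴ) → ∀ A ∈ L, RT lev A → ∀ T : ℝ, 0 < T →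
  ∃ y : ℝ → Matrix ι ι ℂ, y 0 = 1 ∧ ∀ t ∈ Set.Icc (0 : ℝ) T, IsUnit (y t) ∧
    y t * A * (y t)⁻¹ ∈ L ∧
    HasDerivWithinAt y (-(P (Hm lev (y t * A * (y t)⁻¹))) * y t) (Set.Icc 0 T) t

/-- **MON** (the moment map stays in `L`; hypotheses NIL, PRO, LOW, ODE).  Proof.  Let `P` be the
projection of PRO and `H₁ = P H`, `H₂ = H - P H`.  Suppose `ε = ‖H₂(A)‖ > 0`, put `δ = ε / 2`,
`m₀ ‖A‖ ≤ rho lev A` (`bdd`), `M = rho lev A / m₀`, and take `c, R` from LOW for `δ, M`.  Take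
`T > (rho lev A) R² / c²` and the flow `y` of ODE, `A_t = y t * A * (y t)⁻¹ ∈ L`, `H(t) = Hm lev A_t`.
Near `t`, `y (t+s) * A * (y (t+s))⁻¹ = g A_t g⁻¹` with `g = y (t+s) (y t)⁻¹`, of derivative
`- H₁(t)` at `s = 0`; hence (chain rule, `grad`, `smoothH`)
`(rho lev A_t)' = - 2 re tr (H₁ H) = - 2 ‖H₁(t)‖²` and `H(t)' = DHm lev A_t (- H₁) =
- DHm lev A_t H + DHm lev A_t H₂ = - 2 br A_t A_tᴴ + DHm lev A_t H₂` (`flow`; `DHm` is additive).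
Since `br A_t A_tᴴ ∈ L` is orthogonal to `H₂`, and `H₂` is Hermitian:
`(‖H₂(t)‖²)' = 2 re tr (H₂ H') = 2 re tr (H₂ * DHm lev A_t H₂) = 4 re (B H₂ H₂) ≥ 0`.  (Here
`‖H₂‖² = re tr (H₂ H₂)`, `H₂' = H' - P H'`, `tr (H₂ * P H') = 0`.)  So `‖H₂(t)‖ ≥ ε` on `[0, T]` and
`√2 ‖A_t‖ = ‖H(t)‖ ≥ ‖H₂(t)‖ ≥ ε`, so `‖A_t‖ ≥ δ`; also `‖A_t‖ ≤ rho lev A_t / m₀ ≤ M` (`rho` is
nonincreasing).  LOW gives `Y ∈ L` Hermitian, `‖Y‖ ≤ R`, `-c ≥ re tr (Y H) = re tr (Y H₁) ≥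
- R ‖H₁(t)‖`, so `‖H₁(t)‖ ≥ c / R` and `rho lev A_T ≤ rho lev A - 2 T c² / R² < 0`, a contradiction
to `rho lev A_T ≥ m₀ ‖A_T‖ ≥ 0`. -/
def StMON : Prop :=
  ∀ (ι κ : Type) [Fintype ι] [DecidableEq ι] [Fintype κ] [DecidableEq κ] (lev : κ → ℕ)
    (L : Submodule ℂ (Matrix ι ι ℂ)), IfA ι lev → GoodL L → ∀ A ∈ L, RT lev A → Hm lev A ∈ L

/-- **RES** (restriction of the quaternionic structure; hypotheses NIL, PRO, MON).  Proof.
(i) For `X ∈ L`: `DHm lev A X ∈ L`, since for real `s` the matrix `exp (s X) A exp (-s X)` lies in `L`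
(closed under `br`; it is `∑ s^n (br X)^n A / n!`, or a linear ODE) and has rank type `lev`, so its
`Hm` lies in `L` (MON), and `DHm lev A X` is the derivative at `s = 0`.  (ii) If `X ∈ L` and `Y` with
`P Y = 0` are Hermitian, then `2 re (B X Y) = re tr (Y * DHm lev A X) = 0` (PRO), and
`B X Y - star (B X Y) = B X Y - B Y X = tr (br X Y * H) = tr (Y * br H X) = 0` because
`br H X ∈ L`; so `B X Y = 0`.  (iii) The same for arbitrary `X ∈ L`, `P Y = 0`: write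
`X = X₁ + i X₂`, `Y = Y₁ + i Y₂` with Hermitian parts (which stay in `L`, in the kernel of `P`), and
use sesquilinearity.  (iv) Given `X ∈ L` take `X'` from `quat` and replace it by `P X'`: for `Y ∈ L`
`B (X' - P X') Y = star (B Y (X' - P X')) = 0` and
`tr (A * br (X' - P X') Y) = tr ((X' - P X') * br Y A) = 0`. -/
def StRES : Prop :=
  ∀ (ι κ : Type) [Fintype ι] [DecidableEq ι] [Fintype κ] [DecidableEq κ] (lev : κ → ℕ)
    (L : Submodule ℂ (Matrix ι ι ℂ)), IfA ι lev → GoodL L → ∀ A ∈ L, RT lev A →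
  ∀ B, BForm A (Hm lev A) B (DHm lev A) → ∀ X ∈ L, ∃ X' ∈ L, ∀ Y ∈ L,
    B X' Y = trace (A * br X Y) ∧ trace (A * br X' Y) = - B X Y

end Pool.Agent.Helper67.NO
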