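import Pool.Agent.Helper67.NO.Defs

/-!
# Project NO (MP_26be5b_ag): statements of part C (compact real forms by a minimum), with complete
proofs

A bracket on `ℂ^n` is an array `μ : n → Matrix n n ℂ`, `μ i` = matrix of `ad e_i`, i.e.
`[e_i, e_j] = ∑ k, μ i k j • e_k`.
-/

set_option autoImplicit false

namespace Pool.Agent.Helper67.NO

open Matrix
open scoped Matrix.Norms.Frobenius ContDiff Topology ComplexOrder

universe u

section Arrays

variable {n : Type} [Fintype n] [DecidableEq n]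

/-- antisymmetry and the Jacobi identity `[ad e_i, ad e_j] = ad [e_i, e_j]` -/
def IsLie (μ : n → Matrix n n ℂ) : Prop :=
  (∀ i j k, μ i k j = - μ j k i) ∧ (∀ i j, br (μ i) (μ j) = ∑ k, μ i k j • μ k)

/-- Gram matrix of the Killing form -/
def Kil (μ : n → Matrix n n ℂ) : Matrix n n ℂ := fun i j => trace (μ i * μ j)

/-- action of an invertible matrix on brackets, `(g μ)(x, y) = g μ(g⁻¹ x, g⁻¹ y)` -/
noncomputable def gact (g : Matrix n n ℂ) (μ : n → Matrix n n ℂ) : n → Matrix n n ℂ :=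
  fun i => ∑ j, g⁻¹ j i • (g * μ j * g⁻¹)

/-- derivative of the action, `(X μ)(x, y) = X μ(x, y) - μ(X x, y) - μ(x, X y)` -/
def dact (X : Matrix n n ℂ) (μ : n → Matrix n n ℂ) : n → Matrix n n ℂ :=
  fun i => br X (μ i) - ∑ j, X j i • μ j

/-- inner product of arrays, conjugate linear in the first argument -/
def ipm (μ ν : n → Matrix n n ℂ) : ℂ := ∑ i, trace ((μ i)ᴴ * ν i)

/-- squared norm of an array -/
noncomputable def nsm (μ : n → Matrix n n ℂ) : ℝ := ∑ i, ‖μ i‖ ^ 2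

end Arrays

/-- **CAL** (algebra of the action).  Proof.  (1)-(3) and (6), (7) direct computation with sums
(`(g h)⁻¹ = h⁻¹ g⁻¹`, cyclicity of the trace; for (2) note that `gact g μ` is the bracket
transported by `g`; explicitly `(gact g μ) i k j = ∑ g⁻¹ l i * g k p * μ l p q * g⁻¹ q j`, so antisymmetry
in `i, j` is clear, and `br (gact g μ i) (gact g μ j) = ∑ g⁻¹ l i * g⁻¹ m j • g (br (μ l) (μ m)) g⁻¹`).
(4) `tr ((br X μ_i)ᴴ ν_i) = tr (μ_iᴴ (br Xᴴ ν_i))` and `(∑_j X j i μ_j)ᴴ = ∑_j star (X j i) μ_jᴴ`.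
(5) `dact X (dact Y μ) i = br X (br Y μ_i) - ∑ Y j i br X μ_j - ∑ X j i br Y μ_j
+ ∑_k (Y X) k i μ_k`; antisymmetrize and use Jacobi for `br`. -/
def StCAL : Prop :=
  ∀ (n : Type) [Fintype n] [DecidableEq n],
  (∀ (g h : Matrix n n ℂ) (μ : n → Matrix n n ℂ), IsUnit g → IsUnit h →
    gact (g * h) μ = gact g (gact h μ)) ∧
  (∀ μ : n → Matrix n n ℂ, gact 1 μ = μ) ∧
  (∀ (g : Matrix n n ℂ) (μ : n → Matrix n n ℂ), IsUnit g → IsLie μ → IsLie (gact g μ)) ∧
  (∀ (g : Matrix n n ℂ) (μ : n → Matrix n n ℂ), IsUnit g →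
    Kil (gact g μ) = (g⁻¹)ᵀ * Kil μ * g⁻¹) ∧
  (∀ (X : Matrix n n ℂ) (μ ν : n → Matrix n n ℂ), ipm (dact X μ) ν = ipm μ (dact Xᴴ ν)) ∧
  (∀ (X Y : Matrix n n ℂ) (μ : n → Matrix n n ℂ),
    dact (br X Y) μ = dact X (dact Y μ) - dact Y (dact X μ)) ∧
  (∀ (X Y : Matrix n n ℂ) (μ : n → Matrix n n ℂ), dact (X + Y) μ = dact X μ + dact Y μ) ∧
  (∀ (c : ℂ) (X : Matrix n n ℂ) (μ : n → Matrix n n ℂ), dact (c • X) μ = c • dact X μ) ∧
  (∀ μ : n → Matrix n n ℂ, ipm μ μ = (nsm μ : ℂ)) ∧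
  (∀ μ : n → Matrix n n ℂ, nsm μ = 0 → μ = 0)

/-- **CMM** (at a critical bracket the derivations are closed under the adjoint; hypothesis CAL).
Proof.  `nsm (dact Dᴴ μ) = ipm (dact Dᴴ μ) (dact Dᴴ μ) = ipm μ (dact D (dact Dᴴ μ))
= ipm μ (dact (br D Dᴴ) μ) + ipm μ (dact Dᴴ (dact D μ)) = ipm μ (dact (br D Dᴴ) μ)`, and
`br D Dᴴ` is Hermitian of trace `0`, so the real part is `0`. -/
def StCMM : Prop :=
  ∀ (n : Type) [Fintype n] [DecidableEq n] (μ : n → Matrix n n ℂ),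
  (∀ S : Matrix n n ℂ, S.IsHermitian → trace S = 0 → (ipm μ (dact S μ)).re = 0) →
  ∀ D : Matrix n n ℂ, dact D μ = 0 → dact Dᴴ μ = 0

/-- **CHH** (Whitehead: 2-cocycles of a semisimple bracket are coboundaries).  Proof.  `K = Kil μ` is
symmetric; put `K' = K⁻¹` (symmetric) and `ψ = ∑_{i,j} K' i j • (μ j * φ i)`; we show
`φ = dact (-ψ) μ`.  (a) `K * μ l + (μ l)ᵀ * K = 0`: the entry `(i, j)` is
`∑_k K i k (μ l) k j + ∑_k (μ l) k i K k j = tr (μ_i br (μ_l) (μ_j)) + tr (br (μ_l) (μ_i) μ_j) = 0`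
(Jacobi in the form `br (μ l) (μ j) = ∑_k μ l k j • μ k`).  So `μ l * K' + K' * (μ l)ᵀ = 0`.
(b) Casimir: `∑_{i,j} K' i j • (μ j * μ i) = 1`.  In bilinear language, with `e^i = ∑_j K' i j e_j`
the dual basis: `κ([e^i,[e_i,x]], y) = κ([y,[x,e_i]], e^i)` summed over `i` is
`tr (ad y ad x) = κ(x, y)`.  (c) In bilinear language `ψ x = ∑_i [e^i, φ(e_i, x)]`.  The cocycle
condition, applied to `(e_i, y, z)`: `[e_i, φ(y,z)] - [y, φ(e_i,z)] + [z, φ(e_i,y)] - φ([e_i,y], z) +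
φ([e_i,z], y) - φ([y,z], e_i) = 0`.  Apply `ad e^i` and sum.  The first term gives `φ(y,z)` (b).
`∑ [e^i,[y,φ(e_i,z)]] = [y, ψ z] + ∑ [[e^i,y], φ(e_i,z)] = [y, ψ z] - ∑ [e^i, φ([e_i,y], z)]` by the
invariance (a) `∑ [e^i,y] ⊗ e_i = - ∑ e^i ⊗ [e_i,y]`; it cancels the fourth term; the same with
`y, z` exchanged; the last term is `ψ [y,z]`.  So `φ(y,z) = [y, ψ z] + [ψ y, z] - ψ [y,z]`, i.e.
`φ = dact (-ψ) μ`. -/
def StCHH : Prop :=
  ∀ (n : Type) [Fintype n] [DecidableEq n] (μ φ : n → Matrix n n ℂ),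
  IsLie μ → (Kil μ).det ≠ 0 → (∀ i j k, φ i k j = - φ j k i) →
  (∀ i j, br (μ i) (φ j) + br (φ i) (μ j) = ∑ k, (μ i k j • φ k + φ i k j • μ k)) →
  ∃ X : Matrix n n ℂ, φ = dact X μ

/-- **CRG** (semisimple brackets are rigid; hypotheses CAL, CHH).  Proof.  Let `E` be the space of
arrays with `φ i k j = - φ j k i` (real finite-dimensional), `B = {dact X μ}` (contained in `E`), `S` a
complement of `B` in `E`.  `Θ : Matrix n n ℂ × S → E`, `Θ (X, s) = gact (1 + X) (μ + s)` for `X` near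
`0` (`gact` preserves `E`) is `C¹` at `(0, 0)` with derivative `(X, s) ↦ dact X μ + s`, which is onto,
so (`HasStrictFDerivAt.map_nhds_eq_of_surj`) every `ν ∈ E` near `μ` is `gact (1 + X) (μ + s)` with
`X, s` as small as we like; in particular `1 + X` is a unit.  If `ν` is a Lie bracket, so is
`μ + s = gact (1 + X)⁻¹ ν` (CAL).  Expanding Jacobi for `μ + s`: `dJ(s) = - Q(s)` where
`dJ(s) i j = br (μ i) (s j) + br (s i) (μ j) - ∑_k (μ i k j • s k + s i k j • μ k)` is linear and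
`Q(s) i j = br (s i) (s j) - ∑_k s i k j • s k` is quadratic.  `dJ` is injective on `S` by CHH
(`dJ(s) = 0` implies `s ∈ B`), so `‖dJ(s)‖ ≥ c ‖s‖`, `‖Q(s)‖ ≤ C ‖s‖²`, and `s = 0` if `‖s‖ < c / C`.
So `ν = gact (1 + X) μ`. -/
def StCRG : Prop :=
  ∀ (n : Type) [Fintype n] [DecidableEq n] (μ : n → Matrix n n ℂ), IsLie μ → (Kil μ).det ≠ 0 →
  ∀ᶠ ν in 𝓝 μ, IsLie ν → ∃ g : Matrix n n ℂ, IsUnit g ∧ ν = gact g μ

/-- **CMN** (a critical bracket in every semisimple orbit; hypotheses CAL, CRG).  Proof.  Let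
`O = {gact g μ | IsUnit g, ‖det g‖ = 1}` and let `gact (g_k) μ` be a minimizing sequence for `nsm` on
`O`.  It is bounded, so a subsequence converges to some `ν`; `ν` is a Lie bracket (closed conditions)
and `‖det (Kil ν)‖ = ‖det (Kil μ)‖ ≠ 0` by continuity and `det (Kil (gact g μ)) =
(det g)⁻² det (Kil μ)`.  CRG at `ν`: for large `k`, `gact (g_k) μ = gact g ν`, so
`ν = gact (g⁻¹ g_k) μ`, and the determinant formula gives `‖det (g⁻¹ g_k)‖ = 1`.  So `ν ∈ O` is a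
minimizer.  For `S` Hermitian of trace `0` and real `t`, `det (exp (t S)) = exp (t tr S) = 1`, so
`t ↦ nsm (gact (exp (t S)) ν)` has a minimum at `t = 0`; its derivative there is
`2 re (ipm ν (dact S ν))`.  (`det (exp (t S)) = 1`: diagonalize the Hermitian `S`, or
`Matrix.det_exp`.) -/
def StCMN : Prop :=
  ∀ (n : Type) [Fintype n] [DecidableEq n] (μ : n → Matrix n n ℂ), IsLie μ → (Kil μ).det ≠ 0 →
  ∃ h : Matrix n n ℂ, IsUnit h ∧ ∀ S : Matrix n n ℂ, S.IsHermitian → trace S = 0 →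
    (ipm (gact h μ) (dact S (gact h μ))).re = 0

/-- **CPD** (the logarithm of a positive automorphism is a derivation; hypothesis CAL).  Proof.
`P = U diag(l) Uᴴ` with `U` unitary, `l > 0`; put `Y = U diag(log l / 2) Uᴴ`, so
`exp Y * exp Y = P`.  Let `ν = gact Uᴴ μ`; then `gact (diag l) ν = ν`, i.e.
`(l k / (l i l j)) ν i k j = ν i k j`; so `ν i k j ≠ 0` implies `log (l k) = log (l i) + log (l j)`,
which says `dact (diag(log l / 2)) ν = 0` (its entry `i k j` is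
`(log (l k) - log (l j) - log (l i)) / 2 * ν i k j`), and `dact Y μ = gact U (dact (diag ..) ν) = 0`
(or directly). -/
def StCPD : Prop :=
  ∀ (n : Type) [Fintype n] [DecidableEq n] (μ : n → Matrix n n ℂ) (P : Matrix n n ℂ),
  P.PosDef → gact P μ = μ →
  ∃ Y : Matrix n n ℂ, Y.IsHermitian ∧ NormedSpace.exp Y * NormedSpace.exp Y = P ∧ dact Y μ = 0

section LieAlg

variable {n : Type} [Fintype n] [DecidableEq n] {g : Type u} [LieRing g] [LieAlgebra ℂ g]

/-- matrix of `ad x` in a basis -/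
noncomputable def adM (b : Module.Basis n ℂ g) : g →ₗ[ℂ] Matrix n n ℂ :=
  (LinearMap.toMatrix b b).toLinearMap ∘ₗ (LieAlgebra.ad ℂ g : g →ₗ[ℂ] Module.End ℂ g)

/-- the array of a basis -/
noncomputable def arr (b : Module.Basis n ℂ g) : n → Matrix n n ℂ := fun i => adM b (b i)

end LieAlg

/-- **CBS** (bases and arrays).  Proof.  (1) `br (adM b x) (adM b y) = adM b ⁅x, y⁆` (`ad` is a Lie
homomorphism, `toMatrix` is multiplicative); `adM b x = ∑ i, b.repr x i • arr b i`.  (2) the entry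
`arr b i k j` is `b.repr ⁅b i, b j⁆ k`; so antisymmetry, and Jacobi by (1).  (3) the Killing Gram
matrix in the basis `b` is invertible because the Killing form is nondegenerate
(`LieAlgebra.IsKilling`).  (4) `b' i = ∑ j, h⁻¹ j i • b j` is a basis, `adM b' x = h * adM b x * h⁻¹`.
(5) `dact D (arr b) = 0` says that `toLin b b D` is a derivation of `g`; all derivations of a Killing
Lie algebra are inner (`LieDerivation.IsKilling`, in `Mathlib.Algebra.Lie.Derivation.Killing`).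
(6) `dact (adM b x) (arr b) = 0` by (1); hence `t ↦ gact (exp (t adM b x)) (arr b)` has derivative
`gact (..) (dact (adM b x) (arr b)) = 0` and is constant. -/
def StCBS : Prop :=
  ∀ (n : Type) [Fintype n] [DecidableEq n] (g : Type u) [LieRing g] [LieAlgebra ℂ g]
    [FiniteDimensional ℂ g] (b : Module.Basis n ℂ g),
  (∀ x y : g, br (adM b x) (adM b y) = adM b ⁅x, y⁆) ∧ IsLie (arr b) ∧
  (LieAlgebra.IsKilling ℂ g → (Kil (arr b)).det ≠ 0) ∧
  (∀ h : Matrix n n ℂ, IsUnit h → ∃ b' : Module.Basis n ℂ g, arr b' = gact h (arr b)) ∧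
  (LieAlgebra.IsKilling ℂ g → ∀ D : Matrix n n ℂ, dact D (arr b) = 0 → ∃ x : g, adM b x = D) ∧
  (∀ x : g, dact (adM b x) (arr b) = 0 ∧ gact (NormedSpace.exp (adM b x)) (arr b) = arr b)

/-- **CPT** (final result of part C; hypotheses CAL, CMM, CMN, CPD, CBS).  Proof.  Start from any
basis, CMN and CBS (4) give a basis `b` whose array is critical.  lie: CBS (1).  star: `adM b x` kills
`arr b`, so does its adjoint (CMM), which is `adM b y` (CBS (5)).  pd: for `x`, `(adM b x)ᴴ = adM b y`;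
`P = (exp (adM b x))ᴴ * exp (adM b x) = exp (adM b y) * exp (adM b x)` is positive definite and fixes
`arr b` (CBS (6), CAL (1)); CPD gives `Y`, and `dact Y (arr b) = 0` gives `Y = adM b z`. -/
def StCPT : Prop :=
  ∀ (g : Type u) [LieRing g] [LieAlgebra ℂ g] [FiniteDimensional ℂ g] [LieAlgebra.IsKilling ℂ g],
  ∃ b : Module.Basis (Fin (Module.finrank ℂ g)) ℂ g, GoodL (LinearMap.range (adM b))

end Pool.Agent.Helper67.NO
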