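import Pool.Agent.Helper67.NO.FDefs
import Pool.Agent.Helper67.NO.St1
import Pool.Agent.Helper67.NO.St2
import Pool.Agent.Helper67.NO.St3
import Pool.Agent.Helper67.NO.St4

/-!
# Project NO (MP_26be5b_ag): statements of part D (final assembly), with complete proofs
-/

set_option autoImplicit false

namespace Pool.Agent.Helper67.NO

open Matrix
open scoped Matrix.Norms.Frobenius ContDiff Topology ComplexOrder

universe u

/-- **DAD** (`adM` and `expAd`).  Proof.  (1) definition of the Killing form and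
`LinearMap.trace_eq_matrix_trace`.  (2) a Killing Lie algebra has trivial centre.  (3) conjugate by the
change of basis (`Matrix.exp_conj`).  (4) Let `Z = adM b x`.  In the algebra of endomorphisms of
`Matrix n n ℂ`, `br Z = (left multiplication by Z) - (right multiplication by Z)`, which commute, so
`∑ (br Z)^k / k!` applied to `Y` is `exp Z * Y * exp (-Z)`; and `adM b ((ad x)^k y) = (br Z)^k (adM b y)`
because `adM b ⁅x, y⁆ = br (adM b x) (adM b y)`.  (Or: both sides, with `s x` for `x`, solve the same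
linear differential equation in `s`.)  (5), (6) `toMatrix` is an algebra isomorphism and the rank of a
matrix is the dimension of the range of the linear map. -/
def StDAD : Prop :=
  ∀ (n : Type) [Fintype n] [DecidableEq n] (g : Type u) [LieRing g] [LieAlgebra ℂ g]
    [FiniteDimensional ℂ g] (b : Module.Basis n ℂ g),
  (∀ x y : g, trace (adM b x * adM b y) = killingForm ℂ g x y) ∧
  (LieAlgebra.IsKilling ℂ g → Function.Injective (adM b)) ∧
  (∀ x : g, LinearMap.toMatrix b b (expAd x) = NormedSpace.exp (adM b x)) ∧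
  (∀ x y : g, adM b (expAd x y) =
    NormedSpace.exp (adM b x) * adM b y * NormedSpace.exp (-(adM b x))) ∧
  (∀ x : g, IsNilpotent (LieAlgebra.ad ℂ g x) → IsNilpotent (adM b x)) ∧
  (∀ x : g, Module.finrank ℂ (LinearMap.range (LieAlgebra.ad ℂ g x : g →ₗ[ℂ] g)) = (adM b x).rank)

/-- **DOR** (orbits; hypotheses DAD, CBS, HPR).  Proof.  (1) induction on `Orb`, by DAD (4)
(`v = exp (adM b z)`, with inverse `exp (- adM b z)`).  (2) `x ≠ 0` by (1) and injectivity.
(3) `x` is nilpotent (its matrix is conjugate to `adM b x₀`), so HPR for `L = range (adM b)` gives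
`h ∈ g` with `br (adM b h) (adM b x) = adM b x`, i.e. `⁅h, x⁆ = x`; then `expAd (s • h) x = exp s • x`
for `s : ℂ` (an eigenvector of a matrix is an eigenvector of its exponential), and `c = exp s` for
some `s`. -/
def StDOR : Prop :=
  ∀ (n : Type) [Fintype n] [DecidableEq n] (g : Type u) [LieRing g] [LieAlgebra ℂ g]
    [FiniteDimensional ℂ g] [LieAlgebra.IsKilling ℂ g] (b : Module.Basis n ℂ g),
  GoodL (LinearMap.range (adM b)) → ∀ x₀ : g, x₀ ≠ 0 → IsNilpotent (LieAlgebra.ad ℂ g x₀) →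
  ∀ x : g, Orb x₀ x →
    (∃ v : Matrix n n ℂ, IsUnit v ∧ adM b x = v * adM b x₀ * v⁻¹) ∧ x ≠ 0 ∧
    (∀ c : ℂ, c ≠ 0 → Orb x₀ (c • x))

/-- **DCU** (calculus on the orbit; hypothesis NIL).  Proof.  Write `Z_w = ∑ w j • Z j`,
`g_w = exp Z_w`, `A_w = g_w A g_w⁻¹` (rank type `lev`).  At `w₀`: `f w = rho lev (g A_{w₀} g⁻¹)` with
`g = g_w g_{w₀}⁻¹`, smooth in `w` with value `1` at `w₀`; compose with `smooth` at `A_{w₀}`.  For
`c : Fin k → ℂ` and real `t`: `g_{(t+s)c} = exp (s Z_c) g_{tc}`, so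
`fderiv f (t c) c = d/ds f ((t+s) c) = 2 re tr (Z_c * Hm lev A_{tc})` (`grad` at `A_{tc}`), and
`D2 f c c = d/dt` of this at `t = 0`, which by `smoothH` at `A` and the chain rule is
`2 re tr (Z_c * DHm lev A Z_c)`. -/
def StDCU : Prop :=
  ∀ (ι κ : Type) [Fintype ι] [DecidableEq ι] [Fintype κ] [DecidableEq κ] (lev : κ → ℕ),
  IfA ι lev → ∀ A : Matrix ι ι ℂ, RT lev A → ∀ (k : ℕ) (Z : Fin k → Matrix ι ι ℂ),
    ContDiff ℝ ∞ (fun w : Fin k → ℂ =>
      rho lev (NormedSpace.exp (∑ j, w j • Z j) * A * NormedSpace.exp (-∑ j, w j • Z j))) ∧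
    ∀ c : Fin k → ℂ, D2 (fun w : Fin k → ℂ =>
      rho lev (NormedSpace.exp (∑ j, w j • Z j) * A * NormedSpace.exp (-∑ j, w j • Z j))) c c =
        2 * (trace ((∑ j, c j • Z j) * DHm lev A (∑ j, c j • Z j))).re

/-- **DPO** (polarization).  Proof.  `D = D2 f` is real bilinear and symmetric (`f` is `C²`), and
`q c = D c c + D (I c) (I c)`.  With `S c d = ∑ star (c i) * d j * G i j` (Hermitian):
`2 (D c d + D (I c) (I d)) = q (c + d) - q c - q d = 8 re (S c d)`.  For `c = e_i, d = e_j` this gives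
`D e_i e_j + D (I e_i) (I e_j) = 4 re (G i j)`, and for `c = e_i`, `d = I e_j`:
`D e_i (I e_j) - D (I e_i) e_j = 4 re (I * G i j) = - 4 im (G i j)`.  So
`chess f i j = re (G i j) - I im (G i j) = star (G i j) = G j i`. -/
def StDPO : Prop :=
  ∀ (k : ℕ) (f : (Fin k → ℂ) → ℝ) (G : Matrix (Fin k) (Fin k) ℂ), ContDiff ℝ ∞ f →
  G.IsHermitian → (∀ c : Fin k → ℂ, D2 f c c + D2 f (Complex.I • c) (Complex.I • c) =
    4 * (∑ i, ∑ j, star (c i) * c j * G i j).re) → chess f = Gᵀ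

/-- **DGR** (the Gram determinant of a quaternionic form).  Proof.  `B` is positive semidefinite, so
(Cauchy-Schwarz) `B X X = 0` implies `B X Y = 0` for all `Y`.  (1) `∑ star (c i) c j B (X i) (X j) =
B X_c X_c`, `X_c = ∑ c j • X j`.  (2) Let `Gm`, `Ω` be the two matrices.  If the `X i` are linearly
dependent modulo `K`, some `c ≠ 0` has `X_c ∈ K`, so `Gm c = 0` and `Ω c = 0`: both determinants
vanish.  Otherwise they form a basis modulo `K` (`k = dim (V / K)`); let `X_i'` be a vector as in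
`quat` for `X i` and write `X_i' = ∑_l C l i • X l + (element of K)`.  Then
`Ω i j = om (X i) (X j) = B X_i' (X j) = ∑_l star (C l i) Gm l j` and
`- Gm i j = om X_i' (X j) = ∑_l C l i Ω l j`, i.e. `Ω = Cᴴ Gm`, `- Gm = Cᵀ Ω`.  So
`|det Ω| = |det C| |det Gm|`, `|det Gm| = |det C| |det Ω|`, whence `|det Ω| = |det Gm|` (if
`det Gm ≠ 0` then `|det C| = 1`; if `det Gm = 0` then `det Ω = 0`), and `det Gm ≥ 0`. -/
def StDGR : Prop :=
  ∀ (V : Type u) [AddCommGroup V] [Module ℂ V] [FiniteDimensional ℂ V] (B om : V → V → ℂ)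
    (K : Submodule ℂ V),
  (∀ X Y Z, B X (Y + Z) = B X Y + B X Z) → (∀ (c : ℂ) X Y, B X (c • Y) = c * B X Y) →
  (∀ X Y, B Y X = star (B X Y)) → (∀ X, 0 ≤ (B X X).re) →
  (∀ X Y Z, om X (Y + Z) = om X Y + om X Z) → (∀ (c : ℂ) X Y, om X (c • Y) = c * om X Y) →
  (∀ X Y, om Y X = - om X Y) → (∀ X, X ∈ K ↔ B X X = 0) → (∀ X ∈ K, ∀ Y, om X Y = 0) →
  (∀ X, ∃ X', ∀ Y, B X' Y = om X Y ∧ om X' Y = - B X Y) →
  (∀ (k : ℕ) (X : Fin k → V), (Matrix.of fun i j : Fin k => B (X i) (X j)).PosSemidef) ∧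
  (∀ (k : ℕ) (X : Fin k → V), k = Module.finrank ℂ (V ⧸ K) →
    (Matrix.of fun i j : Fin k => B (X i) (X j)).det =
      ((‖(Matrix.of fun i j : Fin k => om (X i) (X j)).det‖ : ℝ) : ℂ))

/-- **DFI** (the theorem; hypotheses NIL, IFA, RES, CPT, DAD, DOR, DCU, DPO, DGR).  Proof.  Take the
basis `b` of CPT, `ι = Fin (finrank ℂ g)`, `L = range (adM b)`, `GoodL L`.  Let
`κ = Σ i : Fin N, Fin ((adM b x₀) ^ (i + 1)).rank`, `lev = fst` (`N` = `finrank ℂ g`); then
`RT lev (adM b x₀)` (for `i ≥ N` both sides are `0`, `adM b x₀` is nilpotent), hence `RT lev (adM b x)`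
for all `x` in the orbit (DOR (1), NIL).  Put `ρ x = rho lev (adM b x)`.  cone: DOR and `IfA.hom`.
bounded: `IfA.bdd`, and `‖adM b x‖` and `size x` are equivalent norms (`adM b` is injective).  For `x`
in the orbit, `A = adM b x`, `Z j = adM b (X j)`: `ρ (chart x X w)` is the function of DCU (DAD (4),
linearity), so smooth.  Let `B` be the form of `IfA.bform` at `A`; by DCU and `BForm.levi`
`D2 f c c + D2 f (I c) (I c) = 4 re (B Z_c Z_c)`, so DPO gives `chess f = Gᵀ`,
`G i j = B (Z i) (Z j)`.  Apply DGR with `V = g`, `B' X Y = B (adM b X) (adM b Y)`,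
`om X Y = trace (A * br (adM b X) (adM b Y)) = killingForm x ⁅X, Y⁆` (CBS (1), DAD (1)),
`K = ker (ad x)` (`B' X X = 0` iff `br (adM b X) A = 0` iff `⁅X, x⁆ = 0`), the last condition by RES.
`finrank (g / ker (ad x)) = finrank (range (ad x))`. -/
def StDFI : Prop :=
  ∀ (g : Type u) [LieRing g] [LieAlgebra ℂ g] [FiniteDimensional ℂ g] [LieAlgebra.IsKilling ℂ g]
    (x₀ : g), x₀ ≠ 0 → IsNilpotent (LieAlgebra.ad ℂ g x₀) → ∃ ρ : g → ℝ, RicciFlatCone x₀ ρ

end Pool.Agent.Helper67.NO
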